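import Mathlib

/-!
# Permutations with marked cycles
-/

set_option autoImplicit false

namespace Pool.Agent.U93.L

open Equiv Equiv.Perm

variable {α : Type} [Fintype α] [DecidableEq α]

/-- the permutations disjoint from `h` -/
def Dj (h : Perm α) : Finset (Perm α) := Finset.univ.filter fun u => h.support ∩ u.support = ∅

lemma mem_Dj {h u : Perm α} : u ∈ Dj h ↔ Disjoint h u := by
  rw [Dj, Finset.mem_filter, disjoint_iff_disjoint_support, Finset.disjoint_iff_inter_eq_empty]
  simp

/-- splitting a permutation along a subset of its cycles -/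
lemma exists_split (g : Perm α) (A : Finset (Perm α)) : A ⊆ g.cycleFactorsFinset →
    ∃ h u : Perm α, Disjoint h u ∧ h * u = g ∧ h.cycleFactorsFinset = A := by
  induction A using Finset.induction_on with
  | empty =>
    intro _
    exact ⟨1, g, disjoint_one_left g, one_mul g, cycleFactorsFinset_one⟩
  | insert C A hC ih =>
    intro hA
    obtain ⟨h, u, hd, hg, hh⟩ := ih ((Finset.subset_insert C A).trans hA)
    have h1 : C ∈ u.cycleFactorsFinset := by
      have h2 : C ∈ g.cycleFactorsFinset := hA (Finset.mem_insert_self C A)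
      rw [← hg, hd.cycleFactorsFinset_mul_eq_union, Finset.mem_union, hh] at h2
      exact h2.resolve_left hC
    have h2 : Disjoint (u * C⁻¹) C := disjoint_mul_inv_of_mem_cycleFactorsFinset h1
    have hCs : C.support ⊆ u.support := mem_cycleFactorsFinset_support_le h1
    have h3 : Disjoint h C := by
      rw [disjoint_iff_disjoint_support] at hd ⊢
      exact hd.mono_right hCs
    have h4 : Disjoint h (u * C⁻¹) := by
      refine hd.mul_right ?_
      exact h3.inv_right
    refine ⟨h * C, u * C⁻¹, ?_, ?_, ?_⟩
    · exact (h4.symm.mul_right h2).symm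
    · rw [mul_assoc, ← hg]
      congr 1
      rw [h2.symm.commute.eq]
      group
    · rw [h3.cycleFactorsFinset_mul_eq_union, hh,
        (mem_cycleFactorsFinset_iff.mp h1).1.cycleFactorsFinset_eq_singleton]
      ext x
      simp

/-- sums over permutations with marked cycles -/
lemma sum_marked {M : Type*} [AddCommMonoid M] (Ψ : Perm α → Finset (Perm α) → M) :
    ∑ g : Perm α, ∑ A ∈ g.cycleFactorsFinset.powerset, Ψ g A
      = ∑ h : Perm α, ∑ u ∈ Dj h, Ψ (h * u) h.cycleFactorsFinset := by
  rw [Finset.sum_sigma', Finset.sum_sigma']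
  symm
  refine Finset.sum_nbij (fun p => ⟨p.1 * p.2, p.1.cycleFactorsFinset⟩) ?_ ?_ ?_ ?_
  · rintro ⟨h, u⟩ hp
    rw [Finset.mem_sigma, mem_Dj] at hp
    rw [Finset.mem_sigma, Finset.mem_powerset]
    refine ⟨Finset.mem_univ _, ?_⟩
    change h.cycleFactorsFinset ⊆ (h * u).cycleFactorsFinset
    rw [hp.2.cycleFactorsFinset_mul_eq_union]
    exact Finset.subset_union_left
  · rintro ⟨h, u⟩ _ ⟨h', u'⟩ _ heq
    simp only [Sigma.mk.injEq, heq_eq_eq] at heq
    have h1 : h = h' := cycleFactorsFinset_injective heq.2
    subst h1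
    have h2 : u = u' := mul_left_cancel heq.1
    subst h2
    rfl
  · rintro ⟨g, A⟩ hp
    rw [Finset.mem_coe, Finset.mem_sigma, Finset.mem_powerset] at hp
    obtain ⟨h, u, hd, hg, hh⟩ := exists_split g A hp.2
    refine ⟨⟨h, u⟩, ?_, ?_⟩
    · rw [Finset.mem_coe, Finset.mem_sigma]
      exact ⟨Finset.mem_univ _, mem_Dj.mpr hd⟩
    · simp only [hg, hh]
  · rintro ⟨h, u⟩ _
    rfl

/-- sums over the permutations disjoint from `h` with marked cycles -/
lemma sum_marked_rel {M : Type*} [AddCommMonoid M] (h : Perm α)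
    (Ψ : Perm α → Finset (Perm α) → M) :
    ∑ g ∈ Dj h, ∑ A ∈ g.cycleFactorsFinset.powerset, Ψ g A
      = ∑ b ∈ Dj h, ∑ u ∈ Dj (h * b), Ψ (b * u) b.cycleFactorsFinset := by
  have h1 := sum_marked (fun g A => if g ∈ Dj h then Ψ g A else 0)
  have h2 : ∑ g ∈ Dj h, ∑ A ∈ g.cycleFactorsFinset.powerset, Ψ g A
      = ∑ g : Perm α, ∑ A ∈ g.cycleFactorsFinset.powerset, if g ∈ Dj h then Ψ g A else 0 := by
    rw [← Finset.sum_subset (Finset.subset_univ (Dj h))]
    · refine Finset.sum_congr rfl fun g hg => Finset.sum_congr rfl fun A _ => ?_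
      rw [if_pos hg]
    · intro g _ hg
      refine Finset.sum_eq_zero fun A _ => ?_
      rw [if_neg hg]
  have h3 : ∑ b ∈ Dj h, ∑ u ∈ Dj (h * b), Ψ (b * u) b.cycleFactorsFinset
      = ∑ b : Perm α, ∑ u ∈ Dj b, if b * u ∈ Dj h then Ψ (b * u) b.cycleFactorsFinset else 0 := by
    rw [← Finset.sum_subset (Finset.subset_univ (Dj h))]
    · refine Finset.sum_congr rfl fun b hb => ?_
      rw [mem_Dj] at hb
      rw [← Finset.sum_filter]
      refine Finset.sum_congr ?_ fun _ _ => rfl
      ext u
      rw [Finset.mem_filter, mem_Dj, mem_Dj, mem_Dj]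
      constructor
      · intro h4
        have h5 : Disjoint h u ∧ Disjoint b u := by
          rw [disjoint_iff_disjoint_support, hb.support_mul, Finset.disjoint_union_left,
            ← disjoint_iff_disjoint_support, ← disjoint_iff_disjoint_support] at h4
          exact h4
        exact ⟨h5.2, hb.mul_right h5.1⟩
      · rintro ⟨h4, h5⟩
        have h6 : Disjoint h u := by
          rw [disjoint_iff_disjoint_support, h4.support_mul, Finset.disjoint_union_right,
            ← disjoint_iff_disjoint_support, ← disjoint_iff_disjoint_support] at h5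
          exact h5.2
        exact (h6.symm.mul_right h4.symm).symm
    · intro b _ hb
      refine Finset.sum_eq_zero fun u hu => ?_
      rw [if_neg]
      intro h4
      rw [mem_Dj] at hb hu h4
      apply hb
      rw [disjoint_iff_disjoint_support, hu.support_mul, Finset.disjoint_union_right,
            ← disjoint_iff_disjoint_support, ← disjoint_iff_disjoint_support] at h4
      exact h4.1
  rw [h2, h3, h1]

end Pool.Agent.U93.L
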