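import Mathlib
import Pool.Agent.U93.Inv

/-!
# The value of a Heilbronn function at the translations of one block
-/

set_option autoImplicit false
set_option linter.unusedSectionVars false

namespace Pool.Agent.U93.L

open Equiv Equiv.Perm Pool.Agent.H302R2 Pool.Agent.U93

/-- `C(m, k) ≤ C(m, j) 2 ^ j` for `k ≤ j ≤ m` -/
lemma choose_le_two_pow {m j k : ℕ} (hk : k ≤ j) (hj : j ≤ m) :
    m.choose k ≤ m.choose j * 2 ^ j := by
  have h1 := Nat.choose_mul (n := m) hk
  have h2 : j.choose k ≤ 2 ^ j := Nat.choose_le_two_pow j k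
  have h3 : 1 ≤ (m - k).choose (j - k) := Nat.choose_pos (by omega)
  calc m.choose k = m.choose k * 1 := (mul_one _).symm
    _ ≤ m.choose k * (m - k).choose (j - k) := Nat.mul_le_mul_left _ h3
    _ = m.choose j * j.choose k := h1.symm
    _ ≤ m.choose j * 2 ^ j := Nat.mul_le_mul_left _ h2

variable {α : Type*} [Fintype α] [DecidableEq α] {θ : alternatingGroup α → ℂ}
variable {F : Type} [Field F] [Fintype F] [DecidableEq F] {m : ℕ}

lemma wt_le (y : Fin m → F) : wt y ≤ m := by
  rw [wt]
  exact (Finset.card_filter_le _ _).trans (by simp)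

/-- The value at the translations of one block. -/
theorem block_value (hθ : IsHeilbronn θ) (hF : 3 ≤ Fintype.card F) (hm : 2 ≤ m)
    (f : Fin m × F ↪ α) {r k : ℕ} (hr : θ 1 = r) (hk : r < m.choose (k + 1)) :
    ∃ W : ℕ, W ≤ k * r ∧ ∀ a : Fin m → F, wt a = 1 →
      ((Fintype.card F : ℂ) - 1) * m * (r - θ (bh hF f (Multiplicative.ofAdd a)))
        = Fintype.card F * W := by
  classical
  obtain ⟨n, hinv, hsum, hdec⟩ := block_decomp hθ hF hm f hr
  have hbig : ∀ y : Fin m → F, k + 1 ≤ wt y → n y = 0 := by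
    intro y hy
    by_contra hcon
    have h3 : r < (Finset.univ.filter fun z : Fin m → F => wt z = wt y).card := by
      rw [card_wt_eq]
      refine hk.trans_le ((choose_le_two_pow hy (wt_le y)).trans ?_)
      exact Nat.mul_le_mul_left _ (Nat.pow_le_pow_left (by omega) _)
    have h4 : (Finset.univ.filter fun z : Fin m → F => wt z = wt y).card ≤ ∑ z, n z := by
      calc (Finset.univ.filter fun z : Fin m → F => wt z = wt y).card
          = ∑ z ∈ Finset.univ.filter (fun z : Fin m → F => wt z = wt y), 1 := by simp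
        _ ≤ ∑ z ∈ Finset.univ.filter (fun z : Fin m → F => wt z = wt y), n z := by
            refine Finset.sum_le_sum fun z hz => ?_
            have := hinv y z (Finset.mem_filter.mp hz).2.symm
            omega
        _ ≤ ∑ z, n z := Finset.sum_le_sum_of_subset (Finset.filter_subset _ _)
    omega
  refine ⟨∑ y, n y * wt y, ?_, ?_⟩
  · rw [← hsum, Finset.mul_sum]
    refine Finset.sum_le_sum fun y _ => ?_
    by_cases h : k + 1 ≤ wt y
    · rw [hbig y h]; simp
    · rw [mul_comm]
      exact Nat.mul_le_mul_right _ (by omega)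
  intro a ha
  set e : AddChar F ℂ := AddChar.FiniteField.primitiveChar_to_Complex F with he
  set t : (Fin m → F) → ℂ := fun a => θ (bh hF f (Multiplicative.ofAdd a)) with ht
  have heq : ∀ a' : Fin m → F, wt a' = 1 → t a' = t a := by
    intro a' ha'
    obtain ⟨u, σ, hu⟩ := exists_monomial (ha.trans ha'.symm)
    -- `a' i = u i * a (σ i)`
    have h1 : t a' = ∑ y, (n y : ℂ) * e (∑ i, y i * a' i) := hdec a'
    have h2 : t a = ∑ y, (n y : ℂ) * e (∑ i, y i * a i) := hdec a
    let T : (Fin m → F) ≃ (Fin m → F) :=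
      { toFun := fun y i => (u (σ⁻¹ i) : F) * y (σ⁻¹ i)
        invFun := fun y i => ((u i)⁻¹ : Fˣ) * y (σ i)
        left_inv := fun y => by
          ext i
          simp only [perm_inv_mul_apply, Units.inv_mul_cancel_left]
        right_inv := fun y => by
          ext i
          simp only [perm_mul_inv_apply, Units.mul_inv_cancel_left] }
    have hTw : ∀ y, wt (T y) = wt y := by
      intro y
      rw [wt, wt]
      refine Finset.card_bij (fun i _ => σ⁻¹ i) ?_ ?_ ?_
      · intro i hi
        rw [Finset.mem_filter] at hi ⊢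
        refine ⟨Finset.mem_univ _, fun h => hi.2 ?_⟩
        change (u (σ⁻¹ i) : F) * y (σ⁻¹ i) = 0
        rw [h, mul_zero]
      · intro i _ j _ hij
        exact σ⁻¹.injective hij
      · intro i hi
        rw [Finset.mem_filter] at hi
        refine ⟨σ i, ?_, perm_inv_mul_apply σ i⟩
        rw [Finset.mem_filter]
        refine ⟨Finset.mem_univ _, fun h => hi.2 ?_⟩
        have h3 : (u (σ⁻¹ (σ i)) : F) * y (σ⁻¹ (σ i)) = 0 := h
        rw [perm_inv_mul_apply] at h3
        rcases mul_eq_zero.mp h3 with h4 | h4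
        · exact absurd h4 (Units.ne_zero _)
        · exact h4
    rw [h1, h2, ← Equiv.sum_comp T (fun y => (n y : ℂ) * e (∑ i, y i * a i))]
    refine Finset.sum_congr rfl fun y _ => ?_
    rw [hinv _ _ (hTw y)]
    congr 2
    rw [← Equiv.sum_comp σ (fun i => T y i * a i)]
    refine Finset.sum_congr rfl fun i _ => ?_
    change y i * a' i = (u (σ⁻¹ (σ i)) : F) * y (σ⁻¹ (σ i)) * a (σ i)
    rw [perm_inv_mul_apply, hu i]
    ring
  have hcard : (Finset.univ.filter fun z : Fin m → F => wt z = 1).card
      = (Fintype.card F - 1) * m := by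
    rw [card_wt_eq, Nat.choose_one_right, pow_one, mul_comm]
  have h5 : ∑ a' ∈ Finset.univ.filter (fun a' : Fin m → F => wt a' = 1), t a'
      = ((Fintype.card F : ℂ) - 1) * m * t a := by
    rw [Finset.sum_congr rfl (fun a' ha' => heq a' (Finset.mem_filter.mp ha').2),
      Finset.sum_const, hcard, nsmul_eq_mul, Nat.cast_mul, Nat.cast_sub (by omega), Nat.cast_one]
  have h6 : ∑ a' ∈ Finset.univ.filter (fun a' : Fin m → F => wt a' = 1), t a'
      = ∑ y, (n y : ℂ) * ((Fintype.card F : ℂ) * (m - wt y : ℂ) - m) := by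
    rw [Finset.sum_congr rfl (fun a' _ => hdec a'), Finset.sum_comm]
    refine Finset.sum_congr rfl fun y _ => ?_
    rw [← Finset.mul_sum, ← sum_wt_one y]
    congr 1
    refine Finset.sum_congr rfl fun a' _ => ?_
    congr 1
    exact Finset.sum_congr rfl fun i _ => mul_comm _ _
  have h7 : ∑ y, (n y : ℂ) * ((Fintype.card F : ℂ) * (m - wt y : ℂ) - m)
      = ((Fintype.card F : ℂ) - 1) * m * r - Fintype.card F * ((∑ y, n y * wt y : ℕ) : ℂ) := by
    rw [← hsum]
    push_cast
    rw [Finset.mul_sum, Finset.mul_sum, ← Finset.sum_sub_distrib]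
    refine Finset.sum_congr rfl fun y _ => ?_
    ring
  change ((Fintype.card F : ℂ) - 1) * m * (r - t a) = _
  rw [mul_sub, ← h5, h6, h7]
  ring

end Pool.Agent.U93.L
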