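import Mathlib
import Pool.Agent.U93.Lem

/-!
# Isotypic parts of Heilbronn functions along commuting subgroups
-/

set_option autoImplicit false
set_option linter.unusedSectionVars false

namespace Pool.Agent.U93.L

open Pool.Agent.H302R2

section part

variable {G K E : Type*} [Group G] [Finite G] [Group K] [Finite K] [Group E] [Finite E]

/-- the multiplicity of `χ` on `E` as a function on `K` -/
noncomputable def part (θ : G → ℂ) (a : K →* G) (b : E →* G) (χ : E →* ℂˣ) (x : K) : ℂ :=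
  (Nat.card E : ℂ)⁻¹ * ∑ᶠ y : E, θ (a x * b y) * (((χ y)⁻¹ : ℂˣ) : ℂ)

theorem part_heil {θ : G → ℂ} (hθ : IsHeilbronn θ) (a : K →* G) (b : E →* G)
    (hab : ∀ x y, Commute (a x) (b y)) (χ : E →* ℂˣ) : IsHeilbronn (part θ a b χ) where
  conj g h := by
    unfold part
    congr 1
    refine finsum_congr fun y => ?_
    congr 1
    rw [map_mul, map_mul, map_inv]
    have h1 := hθ.conj (a g * b y) (a h)
    rw [← h1]
    congr 1
    have h2 : b y * (a h)⁻¹ = (a h)⁻¹ * b y := ((hab h y).inv_left.eq).symm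
    calc a h * a g * (a h)⁻¹ * b y = a h * a g * ((a h)⁻¹ * b y) := by group
      _ = a h * a g * (b y * (a h)⁻¹) := by rw [h2]
      _ = a h * (a g * b y) * (a h)⁻¹ := by group
  mult H ψ := by
    classical
    have : Fintype H := Fintype.ofFinite H
    have : Fintype E := Fintype.ofFinite E
    obtain ⟨n, hn⟩ := hθ.mult_hom ((a.comp H.subtype).noncommCoprod b (fun x y => hab x y))
      (ψ.coprod χ)
    refine ⟨n, ?_⟩
    have hE : (Nat.card E : ℂ) ≠ 0 := by
      have : Nat.card E ≠ 0 := Nat.card_pos.ne'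
      exact_mod_cast this
    rw [finsum_eq_sum_of_fintype]
    have h1 : ∀ h : H, part θ a b χ h * (((ψ h)⁻¹ : ℂˣ) : ℂ)
        = (Nat.card E : ℂ)⁻¹ * ∑ y : E, θ (a h * b y) * ((((ψ h) * (χ y))⁻¹ : ℂˣ) : ℂ) := by
      intro h
      unfold part
      rw [finsum_eq_sum_of_fintype, mul_assoc, Finset.sum_mul]
      congr 1
      refine Finset.sum_congr rfl fun y _ => ?_
      rw [mul_inv, Units.val_mul]
      ring
    rw [Finset.sum_congr rfl (fun h _ => h1 h), ← Finset.mul_sum]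
    have h2 : ∑ h : H, ∑ y : E, θ (a h * b y) * ((((ψ h) * (χ y))⁻¹ : ℂˣ) : ℂ)
        = n * (Nat.card (H × E) : ℂ) := by
      rw [← hn, Fintype.sum_prod_type]
      rfl
    rw [h2, Nat.card_prod]
    push_cast
    field_simp

/-- a Heilbronn function on a commutative group which is not constant along `t` contains a
character which is nontrivial at `t` -/
lemma exists_char {f : E → ℂ} (hf : IsHeilbronn f) (hc : ∀ a b : E, a * b = b * a) {t : E}
    (ht : f t ≠ f 1) : ∃ χ : E →* ℂˣ, χ t ≠ 1 ∧ ∑ᶠ y : E, f y * (((χ y)⁻¹ : ℂˣ) : ℂ) ≠ 0 := by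
  classical
  have : Fintype E := Fintype.ofFinite E
  obtain ⟨ι, _, ψ, n, hd⟩ := hf.comm_decomp hc
  obtain ⟨i, hi, hi1⟩ : ∃ i, n i ≠ 0 ∧ ψ i t ≠ 1 := by
    by_contra hcon
    push Not at hcon
    apply ht
    rw [hd, hd]
    refine Finset.sum_congr rfl fun i _ => ?_
    by_cases h : n i = 0
    · rw [h]; simp
    · rw [hcon i h, map_one]
  refine ⟨ψ i, hi1, ?_⟩
  rw [finsum_eq_sum_of_fintype]
  have h1 : ∑ y : E, f y * (((ψ i y)⁻¹ : ℂˣ) : ℂ)
      = ∑ j, (n j : ℂ) * (if ψ j = ψ i then (Nat.card E : ℂ) else 0) := by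
    calc ∑ y : E, f y * (((ψ i y)⁻¹ : ℂˣ) : ℂ)
        = ∑ y : E, ∑ j, (n j : ℂ) * ((((ψ j * (ψ i)⁻¹) y : ℂˣ)) : ℂ) := by
          refine Finset.sum_congr rfl fun y _ => ?_
          rw [hd, Finset.sum_mul]
          refine Finset.sum_congr rfl fun j _ => ?_
          rw [MonoidHom.mul_apply, MonoidHom.inv_apply, Units.val_mul, mul_assoc]
      _ = ∑ j, (n j : ℂ) * ∑ y : E, ((((ψ j * (ψ i)⁻¹) y : ℂˣ)) : ℂ) := by
          rw [Finset.sum_comm]
          refine Finset.sum_congr rfl fun j _ => ?_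
          rw [Finset.mul_sum]
      _ = _ := by
          refine Finset.sum_congr rfl fun j _ => ?_
          congr 1
          by_cases h : ψ j = ψ i
          · rw [if_pos h, h]
            simp [Nat.card_eq_fintype_card]
          · rw [if_neg h]
            have h2 := finsum_char_eq_zero (ψ j * (ψ i)⁻¹) (fun h3 => h (by
              refine MonoidHom.ext fun x => ?_
              have h4 := DFunLike.congr_fun h3 x
              rw [MonoidHom.mul_apply, MonoidHom.inv_apply, MonoidHom.one_apply,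
                mul_inv_eq_one] at h4
              exact h4))
            rwa [finsum_eq_sum_of_fintype] at h2
  rw [h1]
  have h2 : ∑ j, (n j : ℂ) * (if ψ j = ψ i then (Nat.card E : ℂ) else 0)
      = ((∑ j, n j * (if ψ j = ψ i then Nat.card E else 0) : ℕ) : ℂ) := by
    push_cast
    refine Finset.sum_congr rfl fun j _ => ?_
    split_ifs <;> simp
  rw [h2]
  have h3 : 0 < ∑ j, n j * (if ψ j = ψ i then Nat.card E else 0) := by
    refine lt_of_lt_of_le ?_ (Finset.single_le_sum (fun _ _ => Nat.zero_le _) (Finset.mem_univ i))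
    rw [if_pos rfl]
    exact Nat.mul_pos (Nat.pos_of_ne_zero hi) Nat.card_pos
  exact_mod_cast h3.ne'

/-- If a character of the commutative group `E` occurs, and is nontrivial at `e`, then the part
for a subgroup is not constant along `e`. -/
lemma part_ne {G E : Type*} [Group G] [Finite G] [CommGroup E] [Finite E] {θ : G → ℂ}
    (hθ : IsHeilbronn θ) (φ : E →* G) (E' : Subgroup E) (χ : E →* ℂˣ) {e : E} (he : χ e ≠ 1)
    (hne : ∑ᶠ x : E, θ (φ x) * (((χ x)⁻¹ : ℂˣ) : ℂ) ≠ 0) :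
    part θ φ (φ.comp E'.subtype) (χ.comp E'.subtype) e
      ≠ part θ φ (φ.comp E'.subtype) (χ.comp E'.subtype) 1 := by
  classical
  have : Fintype E := Fintype.ofFinite E
  have : Fintype E' := Fintype.ofFinite E'
  intro h
  set T := part θ φ (φ.comp E'.subtype) (χ.comp E'.subtype) with hT
  have hTh : IsHeilbronn T := part_heil hθ φ (φ.comp E'.subtype) (fun x y => by
    rw [MonoidHom.comp_apply, Commute, SemiconjBy, ← map_mul, ← map_mul, mul_comm]) _
  have h1 : ∀ x, T (x * e) = T x := fun x => (hTh.comm_facts mul_comm).2 x e h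
  have hE : (Nat.card E' : ℂ) ≠ 0 := by
    have : Nat.card E' ≠ 0 := Nat.card_pos.ne'
    exact_mod_cast this
  have h2 : ∑ x : E, T x * (((χ x)⁻¹ : ℂˣ) : ℂ) = ∑ x : E, θ (φ x) * (((χ x)⁻¹ : ℂˣ) : ℂ) := by
    have h3 : ∀ x, T x * (((χ x)⁻¹ : ℂˣ) : ℂ)
        = (Nat.card E' : ℂ)⁻¹ * ∑ y : E', θ (φ (x * y)) * (((χ (x * y))⁻¹ : ℂˣ) : ℂ) := by
      intro x
      rw [hT]
      unfold part
      rw [finsum_eq_sum_of_fintype, mul_assoc, Finset.sum_mul]
      congr 1
      refine Finset.sum_congr rfl fun y _ => ?_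
      rw [map_mul, map_mul, mul_inv, Units.val_mul]
      simp only [MonoidHom.comp_apply, Subgroup.coe_subtype]
      ring
    rw [Finset.sum_congr rfl (fun x _ => h3 x), ← Finset.mul_sum, Finset.sum_comm]
    have h4 : ∀ y : E', ∑ x : E, θ (φ (x * y)) * (((χ (x * y))⁻¹ : ℂˣ) : ℂ)
        = ∑ x : E, θ (φ x) * (((χ x)⁻¹ : ℂˣ) : ℂ) := fun y =>
      Equiv.sum_comp (Equiv.mulRight (y : E)) (fun x => θ (φ x) * (((χ x)⁻¹ : ℂˣ) : ℂ))
    rw [Finset.sum_congr rfl (fun y _ => h4 y), Finset.sum_const, Finset.card_univ,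
      nsmul_eq_mul, ← Nat.card_eq_fintype_card]
    field_simp
  rw [finsum_eq_sum_of_fintype, ← h2] at hne
  apply hne
  have h5 : ∑ x : E, T x * (((χ x)⁻¹ : ℂˣ) : ℂ)
      = (((χ e)⁻¹ : ℂˣ) : ℂ) * ∑ x : E, T x * (((χ x)⁻¹ : ℂˣ) : ℂ) := by
    calc ∑ x : E, T x * (((χ x)⁻¹ : ℂˣ) : ℂ)
        = ∑ x : E, T (x * e) * (((χ (x * e))⁻¹ : ℂˣ) : ℂ) :=
          (Equiv.sum_comp (Equiv.mulRight e) (fun x => T x * (((χ x)⁻¹ : ℂˣ) : ℂ))).symm
      _ = _ := by
          rw [Finset.mul_sum]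
          refine Finset.sum_congr rfl fun x _ => ?_
          rw [h1, map_mul, mul_inv, Units.val_mul]
          ring
  have h6 : (((χ e)⁻¹ : ℂˣ) : ℂ) ≠ 1 := by
    intro h7
    apply he
    rw [← inv_inj, inv_one]
    exact Units.ext (by rw [h7, Units.val_one])
  have h7 : (1 - (((χ e)⁻¹ : ℂˣ) : ℂ)) * ∑ x : E, T x * (((χ x)⁻¹ : ℂˣ) : ℂ) = 0 := by
    linear_combination h5
  rcases mul_eq_zero.mp h7 with h8 | h8
  · exact absurd (sub_eq_zero.mp h8).symm h6
  · exact h8

end part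

end Pool.Agent.U93.L
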