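import Mathlib
import Pool.Agent.U93.L.Bound
import Pool.Agent.U93.L.Part

/-!
# Double transpositions and 3-cycles
-/

set_option autoImplicit false
set_option linter.unusedSectionVars false

namespace Pool.Agent.U93.L

open Equiv Equiv.Perm Pool.Agent.H302R2 Pool.Agent.U93

variable {α : Type*} [Fintype α] [DecidableEq α] {θ : alternatingGroup α → ℂ}

lemma two_le_of_choose {m k r : ℕ} (hr : 0 < r) (hk : r < m.choose (k + 1)) : 2 ≤ m := by
  by_contra hcon
  have h1 : m = 0 ∨ m = 1 := by omega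
  rcases h1 with rfl | rfl
  · simp at hk
  · rcases k with _ | k
    · simp at hk; omega
    · rw [Nat.choose_eq_zero_of_lt (by omega)] at hk
      omega

/-- double transpositions -/
lemma value_four (hθ : IsHeilbronn θ) {r k : ℕ} (hr : θ 1 = r) (hr0 : 0 < r)
    (hk : r < (Fintype.card α / 4).choose (k + 1)) {t : Perm α} (ht2 : t * t = 1)
    (hts : Perm.sign t = 1) (ht4 : t.support.card = 4) :
    ∃ W : ℕ, W ≤ k * r ∧ 3 * ((Fintype.card α / 4 : ℕ) : ℂ) * (r - V θ t) = 4 * W := by
  classical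
  have : Fact (Nat.Prime 2) := ⟨Nat.prime_two⟩
  let F := GaloisField 2 2
  have : Fintype F := Fintype.ofFinite F
  have hcardF : Fintype.card F = 4 := by
    rw [← Nat.card_eq_fintype_card]; exact GaloisField.card 2 2 (by omega)
  have hF : 3 ≤ Fintype.card F := by omega
  set m := Fintype.card α / 4 with hm
  have hm2 : 2 ≤ m := two_le_of_choose hr0 hk
  have hemb : Nonempty (Fin m × F ↪ α) := by
    apply Function.Embedding.nonempty_of_card_le
    rw [Fintype.card_prod, Fintype.card_fin, hcardF]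
    exact Nat.div_mul_le_self _ _
  obtain ⟨f⟩ := hemb
  obtain ⟨W, hW, hval⟩ := block_value hθ hF hm2 f hr hk
  refine ⟨W, hW, ?_⟩
  obtain ⟨a, ha⟩ := exists_wt (F := F) (m := m) (j := 1) (by omega)
  have hcard := card_support_trans f a
  rw [hcardF, ha, mul_one] at hcard
  have hord2 : ∀ w : Perm α, w * w = 1 → w ≠ 1 → orderOf w = 2 := by
    intro w hw hw1
    exact orderOf_eq_prime (by rw [pow_two]; exact hw) hw1
  set w := viaEmbeddingHom f (trans m F (Multiplicative.ofAdd a)) with hw
  have hw2 : w * w = 1 := by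
    rw [hw, ← map_mul, ← map_mul, ← ofAdd_add]
    have : a + a = 0 := by
      ext i
      simp only [Pi.add_apply, Pi.zero_apply]
      exact CharTwo.add_self_eq_zero _
    rw [this, ofAdd_zero, map_one, map_one]
  have hne : ∀ w : Perm α, w.support.card = 4 → w ≠ 1 := by
    intro w hw4 h
    rw [h, support_one, Finset.card_empty] at hw4
    omega
  have hconj : IsConj w t := isConj_of_prime Nat.prime_two (hord2 w hw2 (hne w hcard))
    (hord2 t ht2 (hne t ht4)) (by rw [hcard, ht4])
  obtain ⟨x, hx⟩ : ∃ x, t x ≠ x := by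
    by_contra hcon
    push Not at hcon
    exact hne t ht4 (Equiv.ext hcon)
  have hV : V θ w = V θ t := V_isConj hθ hconj (sign_swap (fun h => hx h.symm) :
    Perm.sign (swap x (t x)) = -1) (by
      rw [Equiv.mul_swap_eq_swap_mul]
      have : t (t x) = x := by rw [← Perm.mul_apply, ht2, Perm.one_apply]
      rw [this, swap_comm])
  have h1 := hval a ha
  rw [← V_bh (θ := θ), ← hw, hV, hcardF] at h1
  rw [← hm] at *
  push_cast at h1
  linear_combination h1

/-- 3-cycles -/
lemma value_three (hθ : IsHeilbronn θ) {r k : ℕ} (hr : θ 1 = r) (hr0 : 0 < r)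
    (hk : r < (Fintype.card α / 4).choose (k + 1)) {t : Perm α}
    (ht3 : t.support.card = 3) :
    (∃ W : ℕ, W ≤ k * r ∧ 2 * ((Fintype.card α / 3 : ℕ) : ℂ) * (r - V θ t) = 3 * W) ∧
      V θ (t * t) = V θ t := by
  classical
  have hp3 : Fact (Nat.Prime 3) := ⟨Nat.prime_three⟩
  have hF : 3 ≤ Fintype.card (ZMod 3) := by rw [ZMod.card]
  have hm4 : 2 ≤ Fintype.card α / 4 := two_le_of_choose hr0 hk
  have ht : t.IsThreeCycle := card_support_eq_three_iff.mp ht3
  have hto : orderOf t = 3 := ht.orderOf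
  -- an odd permutation commuting with `t`
  obtain ⟨x, y, hxy, hx, hy⟩ : ∃ x y : α, x ≠ y ∧ x ∉ t.support ∧ y ∉ t.support := by
    have h1 : 2 ≤ (t.supportᶜ).card := by
      rw [Finset.card_compl, ht3]
      omega
    obtain ⟨x, hx, y, hy, hxy⟩ := Finset.one_lt_card.mp (by omega : 1 < (t.supportᶜ).card)
    exact ⟨x, y, hxy, Finset.mem_compl.mp hx, Finset.mem_compl.mp hy⟩
  have hcs : swap x y * t = t * swap x y := by
    rw [Equiv.mul_swap_eq_swap_mul, notMem_support.mp hx, notMem_support.mp hy]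
  constructor
  · set m := Fintype.card α / 3 with hm
    have hmm : Fintype.card α / 4 ≤ m := Nat.div_le_div_left (by omega) (by omega)
    have hm2 : 2 ≤ m := hm4.trans hmm
    have hemb : Nonempty (Fin m × ZMod 3 ↪ α) := by
      apply Function.Embedding.nonempty_of_card_le
      rw [Fintype.card_prod, Fintype.card_fin, ZMod.card]
      exact Nat.div_mul_le_self _ _
    obtain ⟨f⟩ := hemb
    obtain ⟨W, hW, hval⟩ := block_value hθ hF hm2 f hr
      (hk.trans_le (Nat.choose_le_choose _ hmm))
    refine ⟨W, hW, ?_⟩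
    obtain ⟨a, ha⟩ := exists_wt (F := ZMod 3) (m := m) (j := 1) (by omega)
    have hcard := card_support_trans f a
    rw [ZMod.card, ha, mul_one] at hcard
    set w := viaEmbeddingHom f (trans m (ZMod 3) (Multiplicative.ofAdd a)) with hw
    have hwc : w.IsThreeCycle := card_support_eq_three_iff.mp hcard
    have hV : V θ w = V θ t := V_isConj hθ
      (isConj_iff_cycleType_eq.mpr (hwc.cycleType.trans ht.cycleType.symm))
      (sign_swap hxy : Perm.sign (swap x y) = -1) hcs
    have h1 := hval a ha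
    rw [← V_bh (θ := θ), ← hw, hV, ZMod.card] at h1
    push_cast at h1
    linear_combination h1
  · have h3 : (t * t).IsThreeCycle := ht.isThreeCycle_sq
    exact V_isConj hθ (isConj_iff_cycleType_eq.mpr (h3.cycleType.trans ht.cycleType.symm))
      (sign_swap hxy : Perm.sign (swap x y) = -1) hcs

/-- sums over cyclic groups -/
lemma sum_zpowers {G : Type*} [Group G] [Finite G] (t : G) (F : Subgroup.zpowers t → ℂ) :
    ∑ᶠ y : Subgroup.zpowers t, F y
      = ∑ i ∈ Finset.range (orderOf t), F ⟨t ^ i, Subgroup.npow_mem_zpowers t i⟩ := by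
  classical
  have : Fintype (Subgroup.zpowers t) := Fintype.ofFinite _
  rw [finsum_eq_sum_of_fintype, ← Equiv.sum_comp (finEquivZPowers (isOfFinOrder_of_finite t)),
    Finset.sum_range]
  rfl

/-- the elements allowed -/
def IsAtom (t : alternatingGroup α) : Prop :=
  ((t : Perm α).support.card = 4 ∧ t * t = 1) ∨ (t : Perm α).support.card = 3

/-- The multiplicity of a nontrivial character of the group generated by a double transposition or
a 3-cycle. -/
theorem part_deg (hθ : IsHeilbronn θ) {r k : ℕ} (hr : θ 1 = r)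
    (hk : r < (Fintype.card α / 4).choose (k + 1)) {t : alternatingGroup α} (ht : IsAtom t)
    {K : Type*} [Group K] [Finite K] (a : K →* alternatingGroup α)
    (hab : ∀ x (y : Subgroup.zpowers t), Commute (a x) y)
    (l : Subgroup.zpowers t →* ℂˣ) (hl : l ⟨t, Subgroup.mem_zpowers t⟩ ≠ 1) :
    ∃ N : ℕ, part θ a (Subgroup.zpowers t).subtype l 1 = N ∧
      N < (Fintype.card α / 4 - 1).choose k := by
  classical
  set m := Fintype.card α / 4 with hm
  obtain ⟨N, hN⟩ := (part_heil hθ a (Subgroup.zpowers t).subtype hab l).exists_deg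
  refine ⟨N, hN, ?_⟩
  have hkm : k + 1 ≤ m := by
    by_contra hcon
    rw [Nat.choose_eq_zero_of_lt (by omega)] at hk
    omega
  have hpart : part θ a (Subgroup.zpowers t).subtype l 1 = (Nat.card (Subgroup.zpowers t) : ℂ)⁻¹ *
      ∑ i ∈ Finset.range (orderOf t), θ (t ^ i) *
        (((l ⟨t ^ i, Subgroup.npow_mem_zpowers t i⟩)⁻¹ : ℂˣ) : ℂ) := by
    unfold part
    rw [sum_zpowers]
    simp only [map_one, one_mul, Subgroup.coe_subtype]
  rw [hN, Nat.card_zpowers] at hpart
  have hlp : ∀ i : ℕ, l ⟨t ^ i, Subgroup.npow_mem_zpowers t i⟩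
      = (l ⟨t, Subgroup.mem_zpowers t⟩) ^ i := by
    intro i
    rw [← map_pow]
    rfl
  simp only [hlp] at hpart
  set z : ℂˣ := l ⟨t, Subgroup.mem_zpowers t⟩ with hz
  have hzo : z ^ orderOf t = 1 := by
    rw [hz, ← map_pow]
    have : (⟨t, Subgroup.mem_zpowers t⟩ : Subgroup.zpowers t) ^ orderOf t = 1 :=
      Subtype.ext (pow_orderOf_eq_one t)
    rw [this, map_one]
  have hzi : (((z⁻¹ : ℂˣ)) : ℂ) ≠ 1 := by
    intro h
    apply hl
    rw [← inv_inj, inv_one]
    exact Units.ext (by rw [h, Units.val_one])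
  rcases Nat.eq_zero_or_pos r with hr0 | hr0
  · -- degree zero
    have h0 : ∀ g, θ g = 0 := by
      intro g
      have h1 := hθ.norm_le g
      rw [hr, hr0] at h1
      simp only [Nat.cast_zero, Complex.zero_re] at h1
      exact norm_le_zero_iff.mp h1
    simp only [h0, zero_mul, Finset.sum_const_zero, mul_zero] at hpart
    have hN0 : N = 0 := by exact_mod_cast hpart
    rw [hN0]
    exact Nat.choose_pos (by omega)
  by_contra hcon
  push Not at hcon
  obtain ⟨m', hm'⟩ : ∃ m', m = m' + 1 := ⟨m - 1, by omega⟩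
  have hch : m * (m - 1).choose k = m.choose (k + 1) * (k + 1) := by
    rw [hm']
    exact Nat.add_one_mul_choose_eq m' k
  have hbig : m.choose (k + 1) * (k + 1) ≤ m * N := by
    rw [← hch]
    exact Nat.mul_le_mul_left _ hcon
  have hbig2 : r * (k + 1) < m * N :=
    (Nat.mul_lt_mul_of_pos_right hk (Nat.succ_pos k)).trans_le hbig
  have hVt : V θ (t : Perm α) = θ t := V_coe t
  rcases ht with ⟨ht4, ht2⟩ | ht3
  · obtain ⟨W, hW, hval⟩ := value_four hθ hr hr0 hk (t := (t : Perm α))
      (by exact_mod_cast congrArg Subtype.val ht2) (mem_alternatingGroup.mp t.2) ht4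
    have ht1 : t ≠ 1 := by
      intro h
      rw [h, Subgroup.coe_one, support_one, Finset.card_empty] at ht4
      omega
    have hord : orderOf t = 2 := orderOf_eq_prime (by rw [pow_two]; exact ht2) ht1
    rw [hord] at hpart hzo
    have hz1 : ((z⁻¹ : ℂˣ) : ℂ) = -1 := by
      have h1 : ((z⁻¹ : ℂˣ) : ℂ) ^ 2 = 1 := by
        rw [← Units.val_pow_eq_pow_val, inv_pow, hzo, inv_one, Units.val_one]
      have h3 : (((z⁻¹ : ℂˣ) : ℂ) - 1) * (((z⁻¹ : ℂˣ) : ℂ) + 1) = 0 := by
        linear_combination h1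
      rcases mul_eq_zero.mp h3 with h4 | h4
      · exact absurd (sub_eq_zero.mp h4) hzi
      · exact eq_neg_of_add_eq_zero_left h4
    rw [Finset.sum_range_succ, Finset.sum_range_one, pow_zero, pow_one, pow_zero, pow_one, hr,
      inv_one, Units.val_one, hz1] at hpart
    rw [hVt, ← hm] at hval
    have h1 : (3 * m * N : ℂ) = 2 * W := by
      rw [hpart]
      push_cast
      linear_combination (1 / 2 : ℂ) * hval
    have h2 : 3 * m * N = 2 * W := by exact_mod_cast h1
    nlinarith
  · obtain ⟨⟨W, hW, hval⟩, hsq⟩ := value_three hθ hr hr0 hk ht3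
    have ht : (t : Perm α).IsThreeCycle := card_support_eq_three_iff.mp ht3
    have hord : orderOf t = 3 := by
      rw [← Subgroup.orderOf_coe]
      exact ht.orderOf
    rw [hord] at hpart hzo
    have hsq' : θ (t ^ 2) = θ t := by
      rw [← V_coe (θ := θ), ← V_coe (θ := θ), pow_two]
      exact hsq
    have h1 : ((z⁻¹ : ℂˣ) : ℂ) ^ 3 = 1 := by
      rw [← Units.val_pow_eq_pow_val, inv_pow, hzo, inv_one, Units.val_one]
    have h2 : 1 + ((z⁻¹ : ℂˣ) : ℂ) + ((z⁻¹ : ℂˣ) : ℂ) ^ 2 = 0 := by
      have h3 : (((z⁻¹ : ℂˣ) : ℂ) - 1) * (1 + ((z⁻¹ : ℂˣ) : ℂ) + ((z⁻¹ : ℂˣ) : ℂ) ^ 2) = 0 := by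
        linear_combination h1
      rcases mul_eq_zero.mp h3 with h4 | h4
      · exact absurd (sub_eq_zero.mp h4) hzi
      · exact h4
    rw [Finset.sum_range_succ, Finset.sum_range_succ, Finset.sum_range_one, pow_zero, pow_one,
      pow_zero, pow_one, hr, inv_one, Units.val_one, hsq', ← inv_pow, Units.val_pow_eq_pow_val]
      at hpart
    have h5 : (3 * N : ℂ) = r - θ t := by
      rw [hpart]
      generalize ((z⁻¹ : ℂˣ) : ℂ) = w at h2
      push_cast
      linear_combination θ t * h2
    rw [hVt, ← h5] at hval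
    have h6 : (2 * (Fintype.card α / 3 : ℕ) * N : ℂ) = W := by
      linear_combination (1 / 3 : ℂ) * hval
    have h7 : 2 * (Fintype.card α / 3) * N = W := by exact_mod_cast h6
    have hmm : m ≤ Fintype.card α / 3 := Nat.div_le_div_left (by omega) (by omega)
    have h8 : m * N ≤ (Fintype.card α / 3) * N := Nat.mul_le_mul_right _ hmm
    nlinarith

end Pool.Agent.U93.L
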