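import Mathlib
import Pool.Agent.U93.L.Atom

/-!
# Heilbronn functions of small degree on alternating groups contain no characters which are
nontrivial on many disjoint permutations
-/

set_option autoImplicit false
set_option linter.unusedSectionVars false

namespace Pool.Agent.U93.L

open Equiv Equiv.Perm Pool.Agent.H302R2 Pool.Agent.U93

section sub

variable {α : Type*} [Fintype α] [DecidableEq α]

/-- the inclusion of the alternating group of a subset -/
def altSub (p : α → Prop) [DecidablePred p] : alternatingGroup {a // p a} →* alternatingGroup α :=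
  ((ofSubtype (p := p)).comp (alternatingGroup {a // p a}).subtype).codRestrict _ (fun g => by
    rw [mem_alternatingGroup, MonoidHom.comp_apply, sign_ofSubtype]
    exact mem_alternatingGroup.mp g.2)

lemma altSub_coe (p : α → Prop) [DecidablePred p] (g : alternatingGroup {a // p a}) :
    ((altSub p g : alternatingGroup α) : Perm α) = ofSubtype (g : Perm {a // p a}) := rfl

lemma altSub_fix (p : α → Prop) [DecidablePred p] (g : alternatingGroup {a // p a}) {x : α}
    (hx : ¬ p x) : ((altSub p g : alternatingGroup α) : Perm α) x = x := by
  rw [altSub_coe, ofSubtype_apply_of_not_mem _ hx]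

lemma altSub_mem (p : α → Prop) [DecidablePred p] (g : alternatingGroup {a // p a}) {x : α}
    (hx : p x) : p (((altSub p g : alternatingGroup α) : Perm α) x) := by
  rw [altSub_coe, ofSubtype_apply_of_mem _ hx]
  exact ((g : Perm {a // p a}) ⟨x, hx⟩).2

lemma altSub_apply (p : α → Prop) [DecidablePred p] (g : alternatingGroup {a // p a})
    (x : {a // p a}) :
    ((altSub p g : alternatingGroup α) : Perm α) x = (g : Perm {a // p a}) x := by
  rw [altSub_coe, ofSubtype_apply_coe]

/-- permutations with support in the set commute with permutations fixing the set -/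
lemma altSub_comm (p : α → Prop) [DecidablePred p] (g : alternatingGroup {a // p a})
    (h : alternatingGroup α) (hh : ∀ x, p x → (h : Perm α) x = x) : Commute (altSub p g) h := by
  apply Subtype.ext
  rw [Subgroup.coe_mul, Subgroup.coe_mul]
  refine Disjoint.commute ?_
  intro x
  by_cases hx : p x
  · exact Or.inr (hh x hx)
  · exact Or.inl (altSub_fix p g hx)

/-- the restriction of an even permutation to an invariant subset containing its support -/
lemma exists_restrict (p : α → Prop) [DecidablePred p] (h : alternatingGroup α)
    (hh : ∀ x, ¬ p x → (h : Perm α) x = x) : ∃ g : alternatingGroup {a // p a}, altSub p g = h := by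
  have h1 : ∀ x, p ((h : Perm α) x) ↔ p x := by
    intro x
    constructor
    · intro h2
      by_contra h3
      rw [hh x h3] at h2
      exact h3 h2
    · intro h2
      by_contra h3
      have h4 := hh _ h3
      rw [(h : Perm α).injective h4] at h3
      exact h3 h2
  have h2 : ofSubtype ((h : Perm α).subtypePerm h1) = (h : Perm α) :=
    ofSubtype_subtypePerm h1 (fun x hx => by
      by_contra h3
      exact hx (hh x h3))
  refine ⟨⟨(h : Perm α).subtypePerm h1, ?_⟩, Subtype.ext h2⟩
  rw [mem_alternatingGroup, ← sign_ofSubtype, h2]
  exact mem_alternatingGroup.mp h.2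

lemma altSub_inj (p : α → Prop) [DecidablePred p] : Function.Injective (altSub p) := by
  intro g h hgh
  apply Subtype.ext
  apply ofSubtype_injective
  exact congrArg Subtype.val hgh

/-- homomorphisms whose image fixes the complement of a subset -/
lemma exists_lift {E : Type*} [Group E] (p : α → Prop) [DecidablePred p]
    (φ : E →* alternatingGroup α) (hφ : ∀ e x, ¬ p x → (φ e : Perm α) x = x) :
    ∃ ψ : E →* alternatingGroup {a // p a}, ∀ e, altSub p (ψ e) = φ e := by
  choose f hf using fun e => exists_restrict p (φ e) (hφ e)
  refine ⟨MonoidHom.mk' f (fun a b => altSub_inj p ?_), hf⟩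
  rw [map_mul, hf, hf, hf, map_mul]

lemma altSub_support (p : α → Prop) [DecidablePred p] (g : alternatingGroup {a // p a}) :
    ((altSub p g : alternatingGroup α) : Perm α).support.card
      = (g : Perm {a // p a}).support.card := by
  rw [altSub_coe, support_ofSubtype, Finset.card_map]

end sub

/-- an even permutation moving at most four points is the identity, a double transposition or
a 3-cycle -/
lemma small_atom {α : Type*} [Fintype α] [DecidableEq α] (t : alternatingGroup α) (ht : t ≠ 1)
    (h4 : (t : Perm α).support.card ≤ 4) : IsAtom t := by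
  have h0 : (t : Perm α).support.card ≠ 0 := by
    rw [Ne, Finset.card_eq_zero, support_eq_empty_iff]
    exact fun h => ht (Subtype.ext h)
  have h1 : (t : Perm α).support.card ≠ 1 := card_support_ne_one _
  have h2 : (t : Perm α).support.card ≠ 2 := by
    intro h
    have h3 := (card_support_eq_two.mp h).sign_eq
    rw [mem_alternatingGroup.mp t.2] at h3
    exact absurd h3 (by decide)
  by_cases h3 : (t : Perm α).support.card = 3
  · exact Or.inr h3
  have h5 : (t : Perm α).support.card = 4 := by omega
  refine Or.inl ⟨h5, ?_⟩
  -- the cycle type is `{2, 2}`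
  have h6 := sum_cycleType (t : Perm α)
  rw [h5] at h6
  have h7 : ∀ n ∈ (t : Perm α).cycleType, n = 2 := by
    intro n hn
    obtain ⟨s, hs⟩ := Multiset.exists_cons_of_mem hn
    have h8 := two_le_of_mem_cycleType hn
    rw [hs, Multiset.sum_cons] at h6
    by_contra hn2
    have h9 : s.sum ≤ 1 := by omega
    have h10 : s = 0 := by
      by_contra hs0
      obtain ⟨a, ha⟩ := Multiset.exists_mem_of_ne_zero hs0
      have h11 := two_le_of_mem_cycleType (σ := (t : Perm α)) (n := a) (by
        rw [hs]; exact Multiset.mem_cons_of_mem ha)
      have h12 := Multiset.le_sum_of_mem ha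
      omega
    rw [h10, Multiset.sum_zero, add_zero] at h6
    have h11 := sign_of_cycleType (t : Perm α)
    rw [hs, h10, mem_alternatingGroup.mp t.2, h6] at h11
    simp at h11
    exact absurd h11 (by decide)
  have h8 : orderOf (t : Perm α) ∣ 2 := by
    rw [← lcm_cycleType]
    exact Multiset.lcm_dvd.mpr fun n hn => by rw [h7 n hn]
  apply Subtype.ext
  rw [Subgroup.coe_mul, Subgroup.coe_one, ← pow_two]
  exact orderOf_dvd_iff_pow_eq_one.mp h8

end Pool.Agent.U93.L
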