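import Mathlib
import Pool.Agent.U93.L.Level

/-!
# Heilbronn functions of small degree on alternating groups: the main theorem
-/

set_option autoImplicit false
set_option linter.unusedSectionVars false

namespace Pool.Agent.U93.L

open Equiv Equiv.Perm Pool.Agent.H302R2 Pool.Agent.U93

/-- Let `θ` be a Heilbronn function of degree `r < C(⌊n / 4⌋, k)` on the alternating group of degree
`n`, and `φ` a homomorphism of the commutative group `E` to it. If the images of
`e 0, …, e (k - 1)` have pairwise disjoint supports and `χ (e i) ≠ 1` for all `i`, then `χ` does not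
occur in `θ ∘ φ`. -/
theorem level : ∀ (k : ℕ) (α : Type) [Fintype α] [DecidableEq α] (θ : alternatingGroup α → ℂ),
    IsHeilbronn θ → ∀ r : ℕ, θ 1 = r → r < (Fintype.card α / 4).choose k →
    ∀ (E : Type) [CommGroup E] [Finite E] (φ : E →* alternatingGroup α) (e : Fin k → E),
      (∀ i j, i ≠ j → Disjoint (φ (e i) : Perm α) (φ (e j))) →
      ∀ χ : E →* ℂˣ, (∀ i, χ (e i) ≠ 1) →
        ∑ᶠ x : E, θ (φ x) * (((χ x)⁻¹ : ℂˣ) : ℂ) = 0 := by
  intro k
  induction k with
  | zero =>
    intro α _ _ θ hθ r hr hrk E _ _ φ e _ χ _
    rw [Nat.choose_zero_right] at hrk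
    have hr0 : r = 0 := by omega
    have h0 : ∀ g, θ g = 0 := by
      intro g
      have h1 := hθ.norm_le g
      rw [hr, hr0] at h1
      simp only [Nat.cast_zero, Complex.zero_re] at h1
      exact norm_le_zero_iff.mp h1
    simp only [h0, zero_mul, finsum_zero]
  | succ k ih =>
    intro α _ _ θ hθ r hr hrk E _ _ φ e hdis χ hχ
    classical
    by_contra hne
    have : Fintype E := Fintype.ofFinite E
    -- the elements fixing the support of the first element
    obtain ⟨g, hg⟩ : ∃ g, g = φ (e 0) := ⟨_, rfl⟩
    let E' : Subgroup E :=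
      { carrier := {x | ∀ a, (g : Perm α) a ≠ a → (φ x : Perm α) a = a}
        one_mem' := fun a _ => by rw [map_one]; rfl
        mul_mem' := by
          intro x y hx hy a ha
          rw [map_mul, Subgroup.coe_mul, Perm.mul_apply, hy a ha, hx a ha]
        inv_mem' := by
          intro x hx a ha
          rw [map_inv, Subgroup.coe_inv, Perm.inv_eq_iff_eq, hx a ha] }
    have hE' : ∀ x : E', ∀ a, (g : Perm α) a ≠ a → (φ x : Perm α) a = a := fun x => x.2
    have he' : ∀ i : Fin k, e i.succ ∈ E' := by
      intro i a ha
      rcases hdis 0 i.succ (Fin.succ_ne_zero i).symm a with h | h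
      · rw [← hg] at h
        exact absurd h ha
      · exact h
    set φE : E' →* alternatingGroup α := φ.comp E'.subtype with hφE
    set χE : E' →* ℂˣ := χ.comp E'.subtype with hχE
    set bS := altSub (α := α) (fun a => (g : Perm α) a ≠ a) with hbS
    have hcS : ∀ (x : alternatingGroup {a // (g : Perm α) a ≠ a}) (y : E'),
        Commute (bS x) (φE y) :=
      fun x y => altSub_comm _ x _ (hE' y)
    set Φ := part θ bS φE χE with hΦ
    have hΦh : IsHeilbronn Φ := part_heil hθ bS φE hcS χE
    obtain ⟨gS, hgS⟩ := exists_restrict (α := α) (fun a => (g : Perm α) a ≠ a) g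
      (fun x hx => not_not.mp hx)
    have h1 : Φ gS ≠ Φ 1 := by
      have h2 := part_ne hθ φ E' χ (hχ 0) hne
      have h3 : Φ gS = part θ φ (φ.comp E'.subtype) (χ.comp E'.subtype) (e 0) := by
        rw [hΦ]
        unfold part
        rw [hgS, hg]
      have h4 : Φ 1 = part θ φ (φ.comp E'.subtype) (χ.comp E'.subtype) 1 := by
        rw [hΦ]
        unfold part
        rw [map_one, map_one]
      rw [h3, h4]
      exact h2
    -- an atom
    obtain ⟨tS, htS, h2⟩ : ∃ tS : alternatingGroup {a // (g : Perm α) a ≠ a},
        IsAtom (bS tS) ∧ Φ tS ≠ Φ 1 := by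
      by_cases h5 : 5 ≤ Fintype.card {a // (g : Perm α) a ≠ a}
      · by_contra hcon
        push Not at hcon
        have hD : HasDoubleSwaps Φ := by
          intro a b c d hab hac had hbc hbd hcd
          have hs : Perm.sign (swap a b * swap c d) = 1 := by
            rw [Perm.sign_mul, sign_swap hab, sign_swap hcd]; rfl
          have hdj : Disjoint (swap a b) (swap c d) := by
            rw [disjoint_iff_disjoint_support, support_swap hab, support_swap hcd]
            simp only [Finset.disjoint_insert_left, Finset.mem_insert, Finset.mem_singleton,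
              Finset.disjoint_singleton_left, not_or]
            exact ⟨⟨hac, had⟩, ⟨hbc, hbd⟩⟩
          have hc4 : (swap a b * swap c d).support.card = 4 := by
            rw [hdj.card_support_mul, card_support_swap hab, card_support_swap hcd]
          refine ⟨mem_alternatingGroup.mpr hs, ?_⟩
          refine hcon ⟨_, mem_alternatingGroup.mpr hs⟩ (Or.inl ⟨?_, ?_⟩)
          · rw [hbS, altSub_support]
            exact hc4
          · rw [← map_mul]
            have h6 : (⟨swap a b * swap c d, mem_alternatingGroup.mpr hs⟩ :
                alternatingGroup {a // (g : Perm α) a ≠ a}) * ⟨swap a b * swap c d,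
                mem_alternatingGroup.mpr hs⟩ = 1 := by
              apply Subtype.ext
              change swap a b * swap c d * (swap a b * swap c d) = 1
              have h7 := hdj.commute.eq
              calc swap a b * swap c d * (swap a b * swap c d)
                  = swap a b * (swap c d * swap a b) * swap c d := by group
                _ = (swap a b * swap a b) * (swap c d * swap c d) := by rw [← h7]; group
                _ = 1 := by rw [swap_mul_self, swap_mul_self, one_mul]
            rw [h6, map_one]
        obtain ⟨h6, h7⟩ := InK.all hΦh hD h5 (mem_alternatingGroup.mp gS.2)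
        exact h1 h7
      · refine ⟨gS, ?_, h1⟩
        refine small_atom _ (fun h => h1 ?_) ?_
        · have h6 : gS = 1 := altSub_inj _ (by rw [map_one]; exact h)
          rw [h6]
        · rw [hgS]
          have h6 : Fintype.card {a // (g : Perm α) a ≠ a} = (g : Perm α).support.card := by
            rw [Fintype.card_subtype]
            rfl
          omega
    set t := bS tS with ht
    have hUS : ∀ a, (t : Perm α) a ≠ a → (g : Perm α) a ≠ a := by
      intro a ha
      by_contra h
      exact ha (altSub_fix _ tS (not_not.mpr h))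
    -- the group on the complement of the support of the atom
    set bU := altSub (α := α) (fun a => (t : Perm α) a = a) with hbU
    have hcU : ∀ (x : alternatingGroup {a // (t : Perm α) a = a}) (y : Subgroup.zpowers t),
        Commute (bU x) y := by
      rintro x ⟨y, n, rfl⟩
      have h3 : Commute (bU x) t := altSub_comm _ x t (fun a ha => ha)
      exact h3.zpow_right n
    obtain ⟨ψ, hψ⟩ := exists_lift (α := α) (fun a => (t : Perm α) a = a) φE
      (fun x a ha => hE' x a (hUS a ha))
    have hcard : (Fintype.card α / 4 - 1).choose k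
        ≤ (Fintype.card {a // (t : Perm α) a = a} / 4).choose k := by
      apply Nat.choose_le_choose
      have h3 : Fintype.card {a // (t : Perm α) a = a}
          = Fintype.card α - (t : Perm α).support.card := by
        have h5 := Fintype.card_subtype_compl (fun a => (t : Perm α) a = a)
        have h6 : Fintype.card {a // ¬ (t : Perm α) a = a} = (t : Perm α).support.card := by
          rw [Fintype.card_subtype]
          rfl
        have h7 := Fintype.card_subtype_le (fun a => (t : Perm α) a = a)
        omega
      have h4 : (t : Perm α).support.card ≤ 4 := by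
        rcases htS with ⟨h5, -⟩ | h5
        · exact h5.le
        · omega
      omega
    -- contradiction
    set T := part θ (Subgroup.zpowers t).subtype φE χE with hT
    have hcT : ∀ (x : Subgroup.zpowers t) (y : E'),
        Commute ((Subgroup.zpowers t).subtype x) (φE y) := by
      rintro ⟨x, n, rfl⟩ y
      exact (hcS tS y).zpow_left n
    have hTh : IsHeilbronn T := part_heil hθ _ _ hcT _
    have hT1 : T ⟨t, Subgroup.mem_zpowers t⟩ ≠ T 1 := by
      have h3 : T ⟨t, Subgroup.mem_zpowers t⟩ = Φ tS := rfl
      have h4 : T 1 = Φ 1 := by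
        rw [hT, hΦ]
        unfold part
        simp only [map_one]
      rw [h3, h4]
      exact h2
    obtain ⟨l, hl, hl0⟩ := exists_char hTh (zpowers_comm t) hT1
    obtain ⟨N, hN, hNlt⟩ := part_deg hθ hr hrk htS bU hcU l hl
    have hP : IsHeilbronn (part θ bU (Subgroup.zpowers t).subtype l) :=
      part_heil hθ bU (Subgroup.zpowers t).subtype hcU l
    have hfix : ∀ (y : E') (b : {a // (t : Perm α) a = a}),
        ((ψ y : Perm {a // (t : Perm α) a = a}) b = b) ↔ ((φE y : Perm α) b = b) := by
      intro y b
      have h4 := altSub_apply (α := α) (fun a => (t : Perm α) a = a) (ψ y) b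
      rw [hψ y] at h4
      rw [h4]
      exact ⟨fun h => congrArg Subtype.val h, fun h => Subtype.ext h⟩
    have hdis' : ∀ i j : Fin k, i ≠ j →
        Disjoint (ψ ⟨e i.succ, he' i⟩ : Perm {a // (t : Perm α) a = a}) (ψ ⟨e j.succ, he' j⟩) := by
      intro i j hij b
      have h4 := hdis i.succ j.succ (fun h => hij (Fin.succ_injective _ h))
      rcases h4 b with h6 | h6
      · exact Or.inl ((hfix _ _).mpr h6)
      · exact Or.inr ((hfix _ _).mpr h6)
    have h3 := ih {a // (t : Perm α) a = a} _ hP N hN (hNlt.trans_le hcard) E' ψ
      (fun i => ⟨e i.succ, he' i⟩) hdis' χE (fun i => hχ i.succ)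
    apply hl0
    have : Fintype (Subgroup.zpowers t) := Fintype.ofFinite _
    have : Fintype E' := Fintype.ofFinite _
    rw [finsum_eq_sum_of_fintype] at h3 ⊢
    have hz : (Nat.card (Subgroup.zpowers t) : ℂ) ≠ 0 := by
      have : Nat.card (Subgroup.zpowers t) ≠ 0 := Nat.card_pos.ne'
      exact_mod_cast this
    have h4 : ∑ y : Subgroup.zpowers t, T y * (((l y)⁻¹ : ℂˣ) : ℂ)
        = (Nat.card E' : ℂ)⁻¹ * (Nat.card (Subgroup.zpowers t) : ℂ) *
          ∑ x : E', part θ bU (Subgroup.zpowers t).subtype l (ψ x) * (((χE x)⁻¹ : ℂˣ) : ℂ) := by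
      have h5 : ∀ y : Subgroup.zpowers t, T y * (((l y)⁻¹ : ℂˣ) : ℂ)
          = (Nat.card E' : ℂ)⁻¹ * ∑ x : E', θ ((y : alternatingGroup α) * φE x) *
            (((χE x)⁻¹ : ℂˣ) : ℂ) * (((l y)⁻¹ : ℂˣ) : ℂ) := by
        intro y
        rw [hT]
        unfold part
        rw [finsum_eq_sum_of_fintype, mul_assoc, Finset.sum_mul]
        rfl
      have h6 : ∀ x : E', part θ bU (Subgroup.zpowers t).subtype l (ψ x) * (((χE x)⁻¹ : ℂˣ) : ℂ)
          = (Nat.card (Subgroup.zpowers t) : ℂ)⁻¹ * ∑ y : Subgroup.zpowers t,
            θ ((y : alternatingGroup α) * φE x) *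
            (((χE x)⁻¹ : ℂˣ) : ℂ) * (((l y)⁻¹ : ℂˣ) : ℂ) := by
        intro x
        unfold part
        rw [finsum_eq_sum_of_fintype, mul_assoc, Finset.sum_mul]
        congr 1
        refine Finset.sum_congr rfl fun y _ => ?_
        rw [hbU, hψ x]
        have h7 : φE x * (Subgroup.zpowers t).subtype y = (y : alternatingGroup α) * φE x :=
          (hcT y x).eq.symm
        rw [h7]
        ring
      rw [Finset.sum_congr rfl (fun y _ => h5 y), ← Finset.mul_sum, Finset.sum_comm,
        Finset.sum_congr rfl (fun x _ => h6 x), ← Finset.mul_sum]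
      field_simp
    rw [h4, h3, mul_zero]

end Pool.Agent.U93.L
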