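import Mathlib
import Pool.Agent.U93.L.Dbl

/-!
# Functions whose sums over cosets of symmetric groups vanish
-/

set_option autoImplicit false

namespace Pool.Agent.U93.L

open Equiv Equiv.Perm Polynomial

variable {α : Type} [Fintype α] [DecidableEq α]

/-- the sums over `h Sym(Z)` and the twisted sums vanish for all permutations `h` with less than `k`
nontrivial cycles, where `Z` is the set of the fixed points of `h` -/
def CosZ (k : ℕ) (X : Perm α → ℂ) : Prop :=
  ∀ h : Perm α, h.cycleFactorsFinset.card < k →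
    ∑ u ∈ Dj h, X (h * u) = 0 ∧ ∑ u ∈ Dj h, ((sign u : ℤ) : ℂ) * X (h * u) = 0

/-- the number of the cycles of even length -/
def ev (g : Perm α) : ℕ := (g.cycleFactorsFinset.filter fun C => Even C.support.card).card

lemma sign_eq_ev (g : Perm α) : sign g = (-1) ^ ev g := by
  have h1 : ∀ s : Multiset ℕ, ((-1 : ℤˣ) ^ (s.sum + s.card)) = (-1) ^ (s.countP Even) := by
    intro s
    induction s using Multiset.induction_on with
    | empty => simp
    | cons a s ih =>
      rw [Multiset.sum_cons, Multiset.card_cons,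
        show a + s.sum + (s.card + 1) = (a + 1) + (s.sum + s.card) by ring, pow_add, ih]
      by_cases h : Even a
      · rw [Multiset.countP_cons_of_pos _ h, (h.add_one).neg_one_pow, pow_succ]
        simp
      · rw [Multiset.countP_cons_of_neg _ h, (Nat.not_even_iff_odd.mp h).add_one.neg_one_pow,
          one_mul]
  rw [sign_of_cycleType, h1]
  congr 1
  rw [cycleType_def, Multiset.countP_map, ev, Finset.card_def, Finset.filter_val]
  rfl

lemma two_ev_le (g : Perm α) : 2 * ev g ≤ g.support.card := by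
  rw [← sum_cycleType, cycleType_def]
  have h1 : ((g.cycleFactorsFinset.1.map (Finset.card ∘ Perm.support)).sum)
      = ∑ C ∈ g.cycleFactorsFinset, C.support.card := rfl
  rw [h1]
  calc 2 * ev g = ∑ C ∈ g.cycleFactorsFinset.filter (fun C => Even C.support.card), 2 := by
        rw [Finset.sum_const, smul_eq_mul, mul_comm]; rfl
    _ ≤ ∑ C ∈ g.cycleFactorsFinset.filter (fun C => Even C.support.card), C.support.card := by
        refine Finset.sum_le_sum fun C hC => ?_
        exact (mem_cycleFactorsFinset_iff.mp (Finset.mem_filter.mp hC).1).1.two_le_card_support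
    _ ≤ _ := Finset.sum_le_sum_of_subset (Finset.filter_subset _ _)

/-- the generating function of a coset -/
noncomputable def Pg (X : Perm α → ℂ) (h : Perm α) : ℂ[X] :=
  ∑ u ∈ Dj h, C (X (h * u)) * Polynomial.X ^ ev u

/-- binomial coefficients count sets of even cycles -/
lemma choose_ev (u : Perm α) (d : ℕ) : (((ev u).choose d : ℕ) : ℂ)
    = ∑ A ∈ u.cycleFactorsFinset.powerset,
      if A.card = d ∧ ∀ C ∈ A, Even C.support.card then 1 else 0 := by
  rw [← Finset.sum_filter, Finset.sum_const, nsmul_eq_mul, mul_one, ev, ← Finset.card_powersetCard]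
  congr 2
  ext A
  rw [Finset.mem_powersetCard, Finset.mem_filter, Finset.mem_powerset]
  constructor
  · rintro ⟨h1, h2⟩
    exact ⟨h1.trans (Finset.filter_subset _ _), h2, fun C hC => (Finset.mem_filter.mp (h1 hC)).2⟩
  · rintro ⟨h1, h2, h3⟩
    exact ⟨fun C hC => Finset.mem_filter.mpr ⟨h1 hC, h3 C hC⟩, h2⟩

/-- the basic vanishing statement -/
lemma cos_choose {k : ℕ} {X : Perm α → ℂ} (h : Perm α) (d : ℕ)
    (hd : h.cycleFactorsFinset.card + d < k) (η : Perm α → ℂ)
    (hη : ∀ g g', η (g * g') = η g * η g')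
    (hη2 : ∀ h' : Perm α, h'.cycleFactorsFinset.card < k → ∑ u ∈ Dj h', η u * X (h' * u) = 0) :
    ∑ u ∈ Dj h, η u * X (h * u) * (((ev u).choose d : ℕ) : ℂ) = 0 := by
  have h1 : ∀ u ∈ Dj h, η u * X (h * u) * (((ev u).choose d : ℕ) : ℂ)
      = ∑ A ∈ u.cycleFactorsFinset.powerset,
      if A.card = d ∧ ∀ C ∈ A, Even C.support.card then η u * X (h * u) else 0 := by
    intro u _
    rw [choose_ev, Finset.mul_sum]
    refine Finset.sum_congr rfl fun A _ => ?_
    split_ifs <;> simp
  rw [Finset.sum_congr rfl h1, sum_marked_rel h (fun u A =>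
    if A.card = d ∧ ∀ C ∈ A, Even C.support.card then η u * X (h * u) else 0)]
  refine Finset.sum_eq_zero fun b hb => ?_
  by_cases hc : b.cycleFactorsFinset.card = d ∧ ∀ C ∈ b.cycleFactorsFinset, Even C.support.card
  · simp only [if_pos hc]
    rw [mem_Dj] at hb
    have h2 := hη2 (h * b) (by
      rw [hb.cycleFactorsFinset_mul_eq_union,
        Finset.card_union_of_disjoint hb.disjoint_cycleFactorsFinset, hc.1]
      exact hd)
    have h3 : ∀ u ∈ Dj (h * b), η (b * u) * X (h * (b * u)) = η b * (η u * X (h * b * u)) := by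
      intro u _
      rw [hη, mul_assoc h b u]; ring
    rw [Finset.sum_congr rfl h3, ← Finset.mul_sum, h2, mul_zero]
  · simp only [if_neg hc, Finset.sum_const_zero]

lemma dvd_one {k : ℕ} {X : Perm α → ℂ} (hX : CosZ k X) (h : Perm α) (m : ℕ)
    (hm : h.cycleFactorsFinset.card + m ≤ k) : (Polynomial.X - C 1) ^ m ∣ Pg X h := by
  rw [X_sub_C_pow_dvd_iff, X_pow_dvd_iff]
  intro d hd
  have h1 := cos_choose (k := k) (X := X) h d (by omega) (fun _ => 1) (by simp) (fun h' hh' => by
    simpa using (hX h' hh').1)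
  rw [← h1, Pg, Polynomial.sum_comp, finsetSum_coeff]
  refine Finset.sum_congr rfl fun u _ => ?_
  rw [mul_comp, C_comp, X_pow_comp, coeff_C_mul, C_1, coeff_X_add_one_pow]
  ring

lemma dvd_neg_one {k : ℕ} {X : Perm α → ℂ} (hX : CosZ k X) (h : Perm α) (m : ℕ)
    (hm : h.cycleFactorsFinset.card + m ≤ k) : (Polynomial.X - C (-1)) ^ m ∣ Pg X h := by
  rw [X_sub_C_pow_dvd_iff, X_pow_dvd_iff]
  intro d hd
  have h1 := cos_choose (k := k) (X := X) h d (by omega) (fun g => ((sign g : ℤ) : ℂ)) (by simp) (fun h' hh' =>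
    (hX h' hh').2)
  have h2 : (Pg X h).comp (Polynomial.X + C (-1)) = ∑ u ∈ Dj h,
      C (X (h * u)) * (Polynomial.X + C (-1)) ^ ev u := by
    rw [Pg, Polynomial.sum_comp]
    refine Finset.sum_congr rfl fun u _ => ?_
    rw [mul_comp, C_comp, X_pow_comp]
  rw [h2, finsetSum_coeff]
  have h3 : ∀ u ∈ Dj h, (C (X (h * u)) * (Polynomial.X + C (-1)) ^ ev u).coeff d
      = (-1) ^ d * (((sign u : ℤ) : ℂ) * X (h * u) * (((ev u).choose d : ℕ) : ℂ)) := by
    intro u _
    rw [coeff_C_mul, coeff_X_add_C_pow, sign_eq_ev]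
    by_cases hde : d ≤ ev u
    · have h4 : ((-1 : ℂ)) ^ (ev u - d) = (-1) ^ d * (-1) ^ ev u := by
        obtain ⟨e, he⟩ := Nat.exists_eq_add_of_le hde
        rw [he, Nat.add_sub_cancel_left, pow_add, ← mul_assoc, ← mul_pow]
        simp
      rw [h4]
      push_cast
      ring
    · rw [Nat.choose_eq_zero_of_lt (by omega)]
      simp
  rw [Finset.sum_congr rfl h3, ← Finset.mul_sum, h1, mul_zero]

/-- the generating function is divisible by a power of `X ^ 2 - 1` -/
theorem dvd_both {k : ℕ} {X : Perm α → ℂ} (hX : CosZ k X) (h : Perm α) (m : ℕ)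
    (hm : h.cycleFactorsFinset.card + m ≤ k) : (Polynomial.X ^ 2 - 1) ^ m ∣ Pg X h := by
  have h1 : ((Polynomial.X ^ 2 - 1 : ℂ[X]) ^ m)
      = (Polynomial.X - C 1) ^ m * (Polynomial.X - C (-1)) ^ m := by
    rw [← mul_pow]
    congr 1
    simp only [C_neg, C_1]
    ring
  rw [h1]
  refine IsCoprime.mul_dvd ?_ (dvd_one hX h m hm) (dvd_neg_one hX h m hm)
  refine IsCoprime.pow ?_
  refine isCoprime_X_sub_C_of_isUnit_sub ?_
  norm_num

lemma Pg_natDegree (X : Perm α → ℂ) (h : Perm α) :
    h.support.card + 2 * (Pg X h).natDegree ≤ Fintype.card α := by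
  have h0 : ∀ u ∈ Dj h, h.support.card + 2 * ev u ≤ Fintype.card α := by
    intro u hu
    rw [mem_Dj] at hu
    have h1 := hu.card_support_mul
    have h2 := (h * u).support.card_le_univ
    have h3 := two_ev_le u
    omega
  have h1 : (Pg X h).natDegree ≤ (Fintype.card α - h.support.card) / 2 := by
    unfold Pg
    refine natDegree_sum_le_of_forall_le _ _ fun u hu => ?_
    have h2 := h0 u hu
    refine (natDegree_C_mul_X_pow_le _ _).trans ?_
    omega
  have h2 := h.support.card_le_univ
  omega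

end Pool.Agent.U93.L
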