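import Mathlib
import Pool.Agent.U93.L.Main

/-!
# Heilbronn functions on nilpotent groups; the vanishing property
-/

set_option autoImplicit false
set_option linter.unusedSectionVars false

namespace Pool.Agent.U93.L

open Equiv Equiv.Perm Pool.Agent.H302R2 Pool.Agent.U93

/-- A linear character of a finite nilpotent group which does not occur in a Heilbronn function
on a subgroup does not occur at all. -/
lemma sum_zero_of_sub {P : Type} [Group P] [Finite P] [Group.IsNilpotent P] {f : P → ℂ}
    (hf : IsHeilbronn f) (C : Subgroup P) (h0 : ∑ᶠ x : C, f x = 0) : ∑ᶠ x : P, f x = 0 := by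
  classical
  have : Fintype P := Fintype.ofFinite P
  suffices h : ∀ (m : ℕ) (C : Subgroup P), C.index ≤ m → ∑ᶠ x : C, f x = 0 →
      ∑ᶠ x : P, f x = 0 from h _ C le_rfl h0
  intro m
  induction m with
  | zero =>
    intro C hC _
    have : C.index ≠ 0 := Subgroup.index_ne_zero_of_finite
    omega
  | succ m ih =>
    intro C hC h0
    by_cases hT : C = ⊤
    · subst hT
      rw [← h0]
      exact (finsum_eq_of_bijective (Subgroup.topEquiv (G := P)).toEquiv
        (Subgroup.topEquiv (G := P)).bijective (fun _ => rfl)).symm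
    have hlt : C < Subgroup.normalizer (C : Set P) :=
      Group.normalizerCondition_of_isNilpotent C (lt_top_iff_ne_top.mpr hT)
    set D := Subgroup.normalizer (C : Set P) with hD
    refine ih D ?_ ?_
    · have h1 : D.index < C.index := by
        have h2 := Subgroup.relIndex_mul_index hlt.le
        have h3 : C.relIndex D ≠ 1 := by
          intro h
          rw [Subgroup.relIndex_eq_one] at h
          exact absurd h (not_le_of_gt hlt)
        have h4 : C.relIndex D ≠ 0 := by
          intro h
          rw [h, zero_mul] at h2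
          exact Subgroup.index_ne_zero_of_finite h2.symm
        have h5 : D.index ≠ 0 := Subgroup.index_ne_zero_of_finite
        rw [← h2]
        have h6 : 2 ≤ C.relIndex D := by omega
        nlinarith [Nat.pos_of_ne_zero h5]
      omega
    · have : Fintype C := Fintype.ofFinite C
      have : Fintype D := Fintype.ofFinite D
      rw [finsum_eq_sum_of_fintype] at h0 ⊢
      have h1 : ∀ x : D, ∑ n : C, f (n * x) = 0 := by
        intro x
        have h2 := coset_zero hf C (x := x) (fun n hn =>
          ((Subgroup.mem_normalizer_iff.mp x.2) n).mp hn) 1 (by simpa using h0)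
        simpa using h2
      have h2 : ∀ n : C, ∑ x : D, f (n * x) = ∑ x : D, f x := by
        intro n
        let n' : D := ⟨n, hlt.le n.2⟩
        rw [← Equiv.sum_comp (Equiv.mulLeft n') (fun x : D => f x)]
        rfl
      have h3 : (Fintype.card C : ℂ) * ∑ x : D, f x = 0 := by
        have h4 : ∑ n : C, ∑ x : D, f (n * x) = (Fintype.card C : ℂ) * ∑ x : D, f x := by
          rw [Finset.sum_congr rfl (fun n _ => h2 n), Finset.sum_const, Finset.card_univ,
            nsmul_eq_mul]
        rw [← h4, Finset.sum_comm]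
        exact Finset.sum_eq_zero fun x _ => h1 x
      have h4 : (Fintype.card C : ℂ) ≠ 0 := by
        exact_mod_cast Fintype.card_ne_zero
      exact (mul_eq_zero.mp h3).resolve_left h4

/-- the sums of a function over nilpotent groups, twisted by characters which are nontrivial on
`k` disjoint even permutations, vanish -/
def NilZ {α : Type} [Fintype α] [DecidableEq α] (ι : Type) (F : Perm α → ℂ) : Prop :=
  ∀ (P : Type) [Group P] [Finite P] [Group.IsNilpotent P] (φ : P →* Perm α) (Λ : P →* ℂˣ)
    (p : ι → P), (∀ i j, i ≠ j → Commute (p i) (p j)) →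
    (∀ i j, i ≠ j → Disjoint (φ (p i)) (φ (p j))) → (∀ i, sign (φ (p i)) = 1) →
    (∀ i, Λ (p i) ≠ 1) → ∑ᶠ x : P, F (φ x) * (((Λ x)⁻¹ : ℂˣ) : ℂ) = 0

section
variable {α : Type} [Fintype α] [DecidableEq α]

lemma NilZ.emb {ι κ : Type} {F : Perm α → ℂ} (h : NilZ ι F) (e : ι ↪ κ) : NilZ κ F := by
  intro P _ _ _ φ Λ p h1 h2 h3 h4
  exact h P φ Λ (fun i => p (e i)) (fun i j hij => h1 _ _ (fun h => hij (e.injective h)))
    (fun i j hij => h2 _ _ (fun h => hij (e.injective h))) (fun i => h3 _) (fun i => h4 _)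

lemma NilZ.conj {ι : Type} {F : Perm α → ℂ} (h : NilZ ι F) (τ : Perm α) :
    NilZ ι (fun g => F (τ * g * τ⁻¹)) := by
  intro P _ _ _ φ Λ p h1 h2 h3 h4
  have h5 := h P ((MulAut.conj τ).toMonoidHom.comp φ) Λ p h1 ?_ ?_ h4
  · exact h5
  · intro i j hij
    change Disjoint (τ * φ (p i) * τ⁻¹) (τ * φ (p j) * τ⁻¹)
    exact (Equiv.Perm.Disjoint.conj (h2 i j hij) τ)
  · intro i
    change sign (τ * φ (p i) * τ⁻¹) = 1
    rw [map_mul, map_mul, h3, mul_one, ← map_mul, mul_inv_cancel, map_one]

lemma NilZ.sum {ι σ : Type} (s : Finset σ) {F : σ → Perm α → ℂ} (h : ∀ i ∈ s, NilZ ι (F i)) :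
    NilZ ι (fun g => ∑ i ∈ s, F i g) := by
  intro P _ _ _ φ Λ p h1 h2 h3 h4
  have : Fintype P := Fintype.ofFinite P
  rw [finsum_eq_sum_of_fintype]
  simp only [Finset.sum_mul]
  rw [Finset.sum_comm]
  refine Finset.sum_eq_zero fun i hi => ?_
  rw [← finsum_eq_sum_of_fintype]
  exact h i hi P φ Λ p h1 h2 h3 h4

/-- the extension of a function on a subgroup by zero -/
noncomputable def ext0 (G : Subgroup (Perm α)) (θ : G → ℂ) (g : Perm α) : ℂ :=
  open Classical in if h : g ∈ G then θ ⟨g, h⟩ else 0

/-- Heilbronn functions of small degree have the vanishing property. -/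
theorem nilZ_of {k : ℕ} (G : Subgroup (Perm α)) (hG : alternatingGroup α ≤ G) {θ : G → ℂ}
    (hθ : IsHeilbronn θ) {r : ℕ} (hr : θ 1 = r) (hrk : r < (Fintype.card α / 4).choose k) :
    NilZ (Fin k) (ext0 G θ) := by
  classical
  intro P _ _ _ φ Λ p hcomm hdis hsgn hΛ
  -- the part which is mapped to `G`
  set Q : Subgroup P := G.comap φ with hQ
  let φ' : Q →* G := (φ.comp Q.subtype).codRestrict G (fun x => x.2)
  have hp : ∀ i, p i ∈ Q := fun i => hG (mem_alternatingGroup.mpr (hsgn i))
  let p' : Fin k → Q := fun i => ⟨p i, hp i⟩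
  let Λ' : Q →* ℂˣ := Λ.comp Q.subtype
  have : Fintype P := Fintype.ofFinite P
  have : Fintype Q := Fintype.ofFinite Q
  have hf : IsHeilbronn (fun x : Q => θ (φ' x) * (((Λ' x)⁻¹ : ℂˣ) : ℂ)) := by
    exact (hθ.comp φ').twist Λ'
  have hsum : ∑ᶠ x : P, ext0 G θ (φ x) * (((Λ x)⁻¹ : ℂˣ) : ℂ)
      = ∑ᶠ x : Q, θ (φ' x) * (((Λ' x)⁻¹ : ℂˣ) : ℂ) := by
    rw [finsum_eq_sum_of_fintype, finsum_eq_sum_of_fintype]
    rw [← Finset.sum_subset (Finset.subset_univ (Finset.univ.filter fun x => x ∈ Q))]
    · rw [Finset.sum_subtype (Finset.univ.filter fun x => x ∈ Q) (p := fun x => x ∈ Q) (by simp)]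
      refine Finset.sum_congr rfl fun x _ => ?_
      have h1 : ext0 G θ (φ (x : P)) = θ (φ' x) := by
        unfold ext0
        rw [dif_pos (show φ (x : P) ∈ G from x.2)]
        rfl
      rw [h1]
      rfl
    · intro x _ hx
      rw [Finset.mem_filter, not_and] at hx
      have h1 : ext0 G θ (φ x) = 0 := by
        unfold ext0
        exact dif_neg (hx (Finset.mem_univ _))
      rw [h1, zero_mul]
  rw [hsum]
  -- the commutative group generated by the `p i`
  set C : Subgroup Q := Subgroup.closure (Set.range p') with hC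
  have hCc : ∀ x ∈ Set.range p', ∀ y ∈ Set.range p', x * y = y * x := by
    rintro _ ⟨i, rfl⟩ _ ⟨j, rfl⟩
    by_cases hij : i = j
    · rw [hij]
    · exact Subtype.ext (hcomm i j hij).eq
  let _ : CommGroup C := Subgroup.closureCommGroupOfComm hCc
  have hCA : ∀ x ∈ C, sign (φ (x : P)) = 1 := by
    intro x hx
    have h1 : C ≤ (sign.comp (φ.comp Q.subtype)).ker := by
      rw [hC, Subgroup.closure_le]
      rintro _ ⟨i, rfl⟩
      exact hsgn i
    exact h1 hx
  let ψ : C →* alternatingGroup α := (φ.comp (Q.subtype.comp C.subtype)).codRestrict _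
    (fun x => mem_alternatingGroup.mpr (hCA x x.2))
  refine sum_zero_of_sub hf C ?_
  have h1 := level k α _ (hθ.comp (Subgroup.inclusion hG)) r (by simpa using hr) hrk C ψ
    (fun i => ⟨p' i, Subgroup.subset_closure ⟨i, rfl⟩⟩)
    (fun i j hij => hdis i j hij) (Λ'.comp C.subtype) (fun i => hΛ i)
  exact h1

end

end Pool.Agent.U93.L
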