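import Mathlib
import Pool.Agent.U93.L.Occ

/-!
# Class functions on a symmetric group which contain only `1` and the sign on nilpotent subgroups
-/

set_option autoImplicit false
set_option linter.unusedSectionVars false

namespace Pool.Agent.U93.L

open Equiv Equiv.Perm Pool.Agent.H302R2 Pool.Agent.H302R6 Pool.Agent.U93 Pointwise

/-- the hypothesis for a function on the permutations of `β` -/
def NilOne {β : Type} [Fintype β] [DecidableEq β] (f : Perm β → ℂ) : Prop :=
  ∀ (N : Subgroup (Perm β)), Group.IsNilpotent N → ∀ (l : N →* ℂˣ),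
    (∃ g : N, sign (g : Perm β) = 1 ∧ l g ≠ 1) → ∑ᶠ x : N, f x * (((l x)⁻¹ : ℂˣ) : ℂ) = 0

section
variable {β : Type} [Fintype β] [DecidableEq β] {f : Perm β → ℂ}

/-- the abelian case -/
lemma NilOne.comm (hf : NilOne f) (N : Subgroup (Perm β)) (hN : ∀ a b : N, a * b = b * a)
    {x g : Perm β} (hx : x ∈ N) (hg : g ∈ N) (hs : sign g = 1) : f (x * g) = f x := by
  classical
  have : Fintype N := Fintype.ofFinite N
  have hnil : Group.IsNilpotent N := by
    have : IsMulCommutative N := ⟨⟨hN⟩⟩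
    let _ : CommGroup N := { (inferInstance : Group N) with mul_comm := hN }
    exact CommGroup.isNilpotent
  set g' : N := ⟨g, hg⟩ with hg'
  have h0 : ∀ m : N, f (m * g) - f m = 0 := by
    intro m
    refine zero_of_coeff hN (fun m : N => f (m * g) - f m) (fun l => ?_) m
    rw [finsum_eq_sum_of_fintype]
    simp only [sub_mul]
    rw [Finset.sum_sub_distrib]
    have h1 : ∑ x : N, f (x * g) * (((l x)⁻¹ : ℂˣ) : ℂ)
        = ((l g' : ℂˣ) : ℂ) * ∑ x : N, f x * (((l x)⁻¹ : ℂˣ) : ℂ) := by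
      rw [← Equiv.sum_comp (Equiv.mulRight g') (fun x : N => f x * (((l x)⁻¹ : ℂˣ) : ℂ)),
        Finset.mul_sum]
      refine Finset.sum_congr rfl fun x _ => ?_
      rw [Equiv.coe_mulRight, map_mul, Subgroup.coe_mul, mul_inv, Units.val_mul]
      have h2 : ((l g' : ℂˣ) : ℂ) * (((l g')⁻¹ : ℂˣ) : ℂ) = 1 := Units.mul_inv _
      linear_combination (-f (x * g) * (((l x)⁻¹ : ℂˣ) : ℂ)) * h2
    rw [h1]
    by_cases hl : l g' = 1
    · rw [hl]; simp
    · have h2 := hf N hnil l ⟨g', hs, hl⟩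
      rw [finsum_eq_sum_of_fintype] at h2
      rw [h2]; simp
  exact sub_eq_zero.mp (h0 ⟨x, hx⟩)

lemma two_sub (N : Subgroup (Perm β)) {a : ℕ} (hN : Nat.card N = 2 ^ (a + 1)) {x : N}
    (hx : Subgroup.zpowers x ≠ ⊤) : ∃ M : Subgroup N, Nat.card M = 2 ^ a ∧ x ∈ M := by
  have h2 : Fact (Nat.Prime 2) := ⟨Nat.prime_two⟩
  have h1 : Nat.card (Subgroup.zpowers x) ∣ 2 ^ (a + 1) := by
    rw [← hN]; exact Subgroup.card_subgroup_dvd_card _
  obtain ⟨b, hb, hb1⟩ := (Nat.dvd_prime_pow Nat.prime_two).mp h1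
  have hb2 : b ≠ a + 1 := by
    intro h
    apply hx
    apply Subgroup.eq_top_of_card_eq
    rw [hb1, h, hN]
  obtain ⟨K, hK, hle⟩ := Sylow.exists_subgroup_card_pow_prime_le (p := 2) (m := a) (n := b)
    (G := N) (by rw [hN]; exact pow_dvd_pow 2 (by omega)) (Subgroup.zpowers x) hb1 (by omega)
  exact ⟨K, hK, hle (Subgroup.mem_zpowers x)⟩

/-- the case of a 2-group -/
lemma NilOne.two (hf : NilOne f) : ∀ (a : ℕ) (N : Subgroup (Perm β)), Nat.card N = 2 ^ a →
    ∀ x y : Perm β, x ∈ N → y ∈ N → sign x = -1 → sign y = -1 → f x = f y := by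
  classical
  intro a
  induction a with
  | zero =>
    intro N hN x y hx hy _ _
    have h1 : Subsingleton N := by
      rw [pow_zero] at hN
      exact (Nat.card_eq_one_iff_unique.mp hN).1
    have h2 : (⟨x, hx⟩ : N) = ⟨y, hy⟩ := Subsingleton.elim _ _
    rw [Subtype.mk.injEq] at h2
    rw [h2]
  | succ a ih =>
    intro N hN x y hx hy hsx hsy
    have hcomm : ∀ (z : N), Subgroup.zpowers z = ⊤ → f x = f y := by
      intro z hz
      have hN' : ∀ a b : N, a * b = b * a := by
        intro a b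
        have ha : a ∈ Subgroup.zpowers z := by rw [hz]; trivial
        have hb : b ∈ Subgroup.zpowers z := by rw [hz]; trivial
        obtain ⟨i, rfl⟩ := ha
        obtain ⟨j, rfl⟩ := hb
        exact (Commute.refl z).zpow_zpow i j |>.eq
      have h1 := hf.comm N hN' hx (N.mul_mem (N.inv_mem hx) hy) (by
        rw [map_mul, map_inv, hsx, hsy]; rfl)
      rw [← h1]
      congr 1
      group
    by_cases hzx : Subgroup.zpowers (⟨x, hx⟩ : N) = ⊤
    · exact hcomm _ hzx
    by_cases hzy : Subgroup.zpowers (⟨y, hy⟩ : N) = ⊤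
    · exact hcomm _ hzy
    obtain ⟨M₁, hM₁, hx₁⟩ := two_sub N hN hzx
    obtain ⟨M₂, hM₂, hy₂⟩ := two_sub N hN hzy
    have hind : ∀ M : Subgroup N, Nat.card M = 2 ^ a → M.index = 2 := by
      intro M hM
      have h1 := M.card_mul_index
      rw [hM, hN, pow_succ] at h1
      exact Nat.eq_of_mul_eq_mul_left (by positivity) h1
    have hi₁ := hind M₁ hM₁
    have hi₂ := hind M₂ hM₂
    -- the induction hypothesis
    have ih' : ∀ M : Subgroup N, Nat.card M = 2 ^ a → ∀ u v : N, u ∈ M → v ∈ M →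
        sign (u : Perm β) = -1 → sign (v : Perm β) = -1 → f u = f v := by
      intro M hM u v hu hv hsu hsv
      refine ih (M.map N.subtype) ?_ u v ⟨u, hu, rfl⟩ ⟨v, hv, rfl⟩ hsu hsv
      rw [← hM]
      exact Subgroup.card_map_of_injective (Subgroup.subtype_injective N)
    by_cases hz : ∃ z : N, z ∈ M₁ ∧ z ∈ M₂ ∧ sign (z : Perm β) = -1
    · obtain ⟨z, hz1, hz2, hsz⟩ := hz
      rw [ih' M₁ hM₁ ⟨x, hx⟩ z hx₁ hz1 hsx hsz, ih' M₂ hM₂ ⟨y, hy⟩ z hy₂ hz2 hsy hsz]
    push Not at hz
    set X : N := ⟨x, hx⟩ with hX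
    set Y : N := ⟨y, hy⟩ with hY
    have hsX : sign (X : Perm β) = -1 := hsx
    have hsY : sign (Y : Perm β) = -1 := hsy
    have hY₁ : Y ∉ M₁ := fun h => hz Y h hy₂ hsY
    have hX₂ : X ∉ M₂ := fun h => hz X hx₁ h hsX
    have hm₁ : ∀ u v : N, u * v ∈ M₁ ↔ (u ∈ M₁ ↔ v ∈ M₁) :=
      fun u v => Subgroup.mul_mem_iff_of_index_two hi₁
    have hm₂ : ∀ u v : N, u * v ∈ M₂ ↔ (u ∈ M₂ ↔ v ∈ M₂) :=
      fun u v => Subgroup.mul_mem_iff_of_index_two hi₂
    -- odd elements outside `M₁` are in `M₂`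
    have hodd : ∀ z : N, sign (z : Perm β) = -1 → z ∉ M₁ → z ∈ M₂ := by
      intro z hsz hz1
      by_contra hz2
      have h1 : z * Y * X ∈ M₁ := by
        rw [hm₁, hm₁]
        tauto
      have h2 : z * Y * X ∈ M₂ := by
        rw [hm₂, hm₂]
        tauto
      refine hz _ h1 h2 ?_
      rw [Subgroup.coe_mul, Subgroup.coe_mul, map_mul, map_mul, hsz, hsX, hsY]
      rfl
    -- the character with kernel `M₁`
    let l : N →* ℂˣ := MonoidHom.mk' (fun z => if z ∈ M₁ then 1 else -1) (by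
      intro u v
      by_cases h1 : u ∈ M₁ <;> by_cases h2 : v ∈ M₁ <;> simp [hm₁, h1, h2])
    have hl : ∀ z : N, l z = if z ∈ M₁ then 1 else -1 := fun z => rfl
    set W := X * Y with hW
    have hW1 : W ∉ M₁ := by rw [hW, hm₁]; tauto
    have hWs : sign (W : Perm β) = 1 := by
      rw [hW, Subgroup.coe_mul, map_mul, hsX, hsY]; rfl
    have hlW : l W = -1 := by rw [hl, if_neg hW1]
    have hnil : Group.IsNilpotent N := by
      have h2 : Fact (Nat.Prime 2) := ⟨Nat.prime_two⟩
      exact (IsPGroup.of_card hN).isNilpotent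
    have h0 := hf N hnil l ⟨W, hWs, by
      rw [hlW]
      intro h
      have := congrArg Units.val h
      norm_num at this⟩
    have : Fintype N := Fintype.ofFinite N
    rw [finsum_eq_sum_of_fintype] at h0
    have h1 : ∑ z : N, f (z * W : N) * (((l z)⁻¹ : ℂˣ) : ℂ) = 0 := by
      have h2 : ∑ z : N, f (z * W : N) * (((l z)⁻¹ : ℂˣ) : ℂ)
          = ((l W : ℂˣ) : ℂ) * ∑ x : N, f x * (((l x)⁻¹ : ℂˣ) : ℂ) := by
        rw [← Equiv.sum_comp (Equiv.mulRight W) (fun x : N => f x * (((l x)⁻¹ : ℂˣ) : ℂ)),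
          Finset.mul_sum]
        refine Finset.sum_congr rfl fun x _ => ?_
        clear_value W
        rw [Equiv.coe_mulRight, map_mul, mul_inv, Units.val_mul]
        have h2 : ((l W : ℂˣ) : ℂ) * (((l W)⁻¹ : ℂˣ) : ℂ) = 1 := Units.mul_inv _
        linear_combination (-f (x * W : N) * (((l x)⁻¹ : ℂˣ) : ℂ)) * h2
      rw [h2, h0, mul_zero]
    have h2 : ∀ z : N, (f z - f (z * W : N)) * (((l z)⁻¹ : ℂˣ) : ℂ)
        = if sign (z : Perm β) = -1 then f x - f y else 0 := by
      intro z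
      have hev : ∀ u : N, sign (u : Perm β) = 1 → f u = f 1 := by
        intro u hu
        have h3 := hf.comm (Subgroup.zpowers (u : Perm β))
          (fun a b => by
            obtain ⟨a, i, rfl⟩ := a
            obtain ⟨b, j, rfl⟩ := b
            exact Subtype.ext ((Commute.refl (u : Perm β)).zpow_zpow i j).eq)
          (one_mem _) (Subgroup.mem_zpowers (u : Perm β)) hu
        rw [one_mul] at h3
        exact h3
      rcases Int.units_eq_one_or (sign (z : Perm β)) with hs | hs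
      · have hzW : sign ((z * W : N) : Perm β) = 1 := by
          rw [Subgroup.coe_mul, map_mul, hs, hWs, one_mul]
        rw [hev z hs, hev _ hzW, sub_self, zero_mul, hs, if_neg (by decide)]
      · have hzW : sign ((z * W : N) : Perm β) = -1 := by
          rw [Subgroup.coe_mul, map_mul, hs, hWs, mul_one]
        rw [if_pos hs]
        by_cases hz1 : z ∈ M₁
        · have h3 : z * W ∉ M₁ := by rw [hm₁]; tauto
          rw [hl, if_pos hz1, ih' M₁ hM₁ z X hz1 hx₁ hs hsX,
            ih' M₂ hM₂ (z * W) Y (hodd _ hzW h3) hy₂ hzW hsY]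
          simp [hX, hY]
        · have h3 : z * W ∈ M₁ := by rw [hm₁]; tauto
          rw [hl, if_neg hz1, ih' M₁ hM₁ (z * W) X h3 hx₁ hzW hsX,
            ih' M₂ hM₂ z Y (hodd _ hs hz1) hy₂ hs hsY]
          simp [hX, hY]
    have h3 : ∑ z : N, (f z - f (z * W : N)) * (((l z)⁻¹ : ℂˣ) : ℂ) = 0 := by
      simp only [sub_mul]
      rw [Finset.sum_sub_distrib, h0, h1, sub_zero]
    rw [Finset.sum_congr rfl (fun z _ => h2 z), ← Finset.sum_filter, Finset.sum_const,
      nsmul_eq_mul] at h3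
    rcases mul_eq_zero.mp h3 with h4 | h4
    · exfalso
      have h5 : (Finset.univ.filter fun z : N => sign (z : Perm β) = -1).card = 0 := by
        exact_mod_cast h4
      rw [Finset.card_eq_zero] at h5
      have h6 : X ∈ (Finset.univ.filter fun z : N => sign (z : Perm β) = -1) := by
        rw [Finset.mem_filter]; exact ⟨Finset.mem_univ _, hsX⟩
      rw [h5] at h6
      exact absurd h6 (Finset.notMem_empty _)
    · exact sub_eq_zero.mp h4

/-- A class function which contains on nilpotent subgroups only characters that are trivial on the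
even elements depends on the sign only. -/
theorem parity_const (hf : NilOne f) (hconj : ∀ g h : Perm β, f (h * g * h⁻¹) = f g)
    {x y : Perm β} (hs : sign x = sign y) : f x = f y := by
  classical
  have hz : ∀ u : Perm β, ∀ a b : Subgroup.zpowers u, a * b = b * a := by
    rintro u ⟨a, i, rfl⟩ ⟨b, j, rfl⟩
    exact Subtype.ext ((Commute.refl u).zpow_zpow i j).eq
  rcases Int.units_eq_one_or (sign x) with h | h
  · have hev : ∀ u : Perm β, sign u = 1 → f u = f 1 := by
      intro u hu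
      have h3 := hf.comm (Subgroup.zpowers u) (hz u) (one_mem _) (Subgroup.mem_zpowers u) hu
      rw [one_mul] at h3
      exact h3
    rw [hev x h, hev y (by rw [← hs]; exact h)]
  · have h2 : Fact (Nat.Prime 2) := ⟨Nat.prime_two⟩
    -- reduction to elements of 2-power order
    have hred : ∀ u : Perm β, sign u = -1 → ∃ v : Perm β, sign v = -1 ∧ f v = f u ∧
        IsPGroup 2 (Subgroup.zpowers v) := by
      intro u hu
      have h0 : orderOf u ≠ 0 := (orderOf_pos u).ne'
      obtain ⟨e, m, hm, hem⟩ := Nat.exists_eq_two_pow_mul_odd h0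
      refine ⟨u ^ m, ?_, ?_, ?_⟩
      · rw [map_pow, hu]
        exact hm.neg_one_pow
      · obtain ⟨j, hj⟩ := hm
        have h3 := hf.comm (Subgroup.zpowers u) (hz u) (x := u) (g := u ^ (2 * j))
          (Subgroup.mem_zpowers u) (Subgroup.npow_mem_zpowers u _) (by
            rw [map_pow, hu, pow_mul]; simp)
        rw [← h3, hj, pow_succ']
      · refine IsPGroup.of_card (n := e) ?_
        rw [Nat.card_zpowers, orderOf_pow, hem]
        have h3 : Nat.gcd (2 ^ e * m) m = m := Nat.gcd_eq_right (Dvd.intro_left _ rfl)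
        rw [h3]
        exact Nat.mul_div_cancel _ hm.pos
    obtain ⟨x', hx's, hx'f, hx'p⟩ := hred x h
    obtain ⟨y', hy's, hy'f, hy'p⟩ := hred y (by rw [← hs]; exact h)
    rw [← hx'f, ← hy'f]
    obtain ⟨P, hP⟩ := hx'p.exists_le_sylow
    obtain ⟨Q, hQ⟩ := hy'p.exists_le_sylow
    obtain ⟨g, hg⟩ := MulAction.exists_smul_eq (Perm β) Q P
    have hyP : g * y' * g⁻¹ ∈ (P : Subgroup (Perm β)) := by
      rw [← hg]
      change g * y' * g⁻¹ ∈ (MulAut.conj g) • (Q : Subgroup (Perm β))
      exact Subgroup.smul_mem_pointwise_smul _ (MulAut.conj g) _ (hQ (Subgroup.mem_zpowers y'))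
    obtain ⟨a, ha⟩ := P.isPGroup'.exists_card_eq
    rw [← hconj y' g]
    exact hf.two a P ha x' _ (hP (Subgroup.mem_zpowers x')) hyP hx's (by
      rw [map_mul, map_mul, hy's, map_inv]
      rw [mul_comm (sign g), mul_assoc, mul_inv_cancel, mul_one])

end

end Pool.Agent.U93.L
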