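import Mathlib
import Pool.Agent.U93.L.One

/-!
# Mixed differences of class functions with the vanishing property
-/

set_option autoImplicit false
set_option linter.unusedSectionVars false

namespace Pool.Agent.U93.L

open Equiv Equiv.Perm Pool.Agent.H302R2 Pool.Agent.U93

section

variable {α ι : Type} [Fintype α] [DecidableEq α] [Fintype ι] [DecidableEq ι]

lemma ofSub_disj (c : α → ι) {i j : ι} (hij : i ≠ j) (x : Perm {a // c a = i})
    (y : Perm {a // c a = j}) : Disjoint (ofSubtype x) (ofSubtype y) := by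
  intro a
  by_cases h : c a = i
  · right
    exact ofSubtype_apply_of_not_mem _ (fun h1 => hij (h.symm.trans h1))
  · left
    exact ofSubtype_apply_of_not_mem _ h

/-- permutations of the colour classes act on the whole set -/
noncomputable def join (c : α → ι) : (∀ t, Perm {a // c a = t}) →* Perm α :=
  MonoidHom.noncommPiCoprod (fun t => (ofSubtype (p := fun a => c a = t)))
    (fun _ _ hij x y => (ofSub_disj c hij x y).commute)

lemma join_single (c : α → ι) (t : ι) (x : Perm {a // c a = t}) :
    join c (Pi.mulSingle t x) = ofSubtype x :=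
  MonoidHom.noncommPiCoprod_mulSingle _ _ _

lemma join_cycleType (c : α → ι) (y : ∀ t, Perm {a // c a = t}) :
    (join c y).cycleType = ∑ t, (y t).cycleType := by
  have h1 := Disjoint.cycleType_noncommProd (s := (Finset.univ : Finset ι))
    (k := fun t => (ofSubtype (y t) : Perm α))
    (fun i _ j _ hij => ofSub_disj c hij (y i) (y j))
  rw [← Finset.sum_congr rfl (fun t _ => cycleType_ofSubtype (g := y t))]
  exact h1

/-- functions given by linear characters of nilpotent subgroups -/
def NT {β : Type} [Fintype β] [DecidableEq β] (γ : Perm β → ℂ) : Prop :=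
  ∃ (N : Subgroup (Perm β)) (_ : Group.IsNilpotent N) (l : N →* ℂˣ) (g : N),
    sign (g : Perm β) = 1 ∧ l g ≠ 1 ∧ (∀ x : N, γ x = (((l x)⁻¹ : ℂˣ) : ℂ)) ∧ ∀ x, x ∉ N → γ x = 0

/-- the multilinear form of a function -/
noncomputable def Mf (F : Perm α → ℂ) (c : α → ι) (β : ∀ t, Perm {a // c a = t} → ℂ) : ℂ :=
  ∑ y : ∀ t, Perm {a // c a = t}, F (join c y) * ∏ t, β t (y t)

/-- the form with one argument a point mass -/
noncomputable def Mt (F : Perm α → ℂ) (c : α → ι) (β : ∀ t, Perm {a // c a = t} → ℂ) (t : ι)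
    (x : Perm {a // c a = t}) : ℂ :=
  ∑ y : ∀ t, Perm {a // c a = t}, if y t = x then
    F (join c y) * ∏ s ∈ Finset.univ.erase t, β s (y s) else 0

lemma Mf_eq (F : Perm α → ℂ) (c : α → ι) (β β' : ∀ t, Perm {a // c a = t} → ℂ) (t : ι)
    (h : ∀ s, s ≠ t → β' s = β s) : Mf F c β' = ∑ x, β' t x * Mt F c β t x := by
  unfold Mf Mt
  simp only [Finset.mul_sum]
  rw [Finset.sum_comm]
  refine Finset.sum_congr rfl fun y _ => ?_
  rw [Finset.sum_eq_single (y t)]
  · rw [if_pos rfl, ← Finset.mul_prod_erase Finset.univ (fun s => β' s (y s)) (Finset.mem_univ t)]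
    have h1 : ∏ s ∈ Finset.univ.erase t, β' s (y s) = ∏ s ∈ Finset.univ.erase t, β s (y s) :=
      Finset.prod_congr rfl fun s hs => by rw [h s (Finset.ne_of_mem_erase hs)]
    rw [h1]
    ring
  · intro x _ hx
    rw [if_neg (fun h => hx h.symm), mul_zero]
  · intro h; exact absurd (Finset.mem_univ _) h

lemma Mt_conj {F : Perm α → ℂ} (hF : ∀ g h : Perm α, F (h * g * h⁻¹) = F g) (c : α → ι)
    (β : ∀ t, Perm {a // c a = t} → ℂ) (t : ι) (x u : Perm {a // c a = t}) :
    Mt F c β t (u * x * u⁻¹) = Mt F c β t x := by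
  unfold Mt
  let w : ∀ t, Perm {a // c a = t} := Pi.mulSingle t u
  rw [← Equiv.sum_comp (MulAut.conj w).toEquiv]
  refine Finset.sum_congr rfl fun y _ => ?_
  have h1 : (MulAut.conj w).toEquiv y = w * y * w⁻¹ := rfl
  have h2 : ∀ s, s ≠ t → (w * y * w⁻¹) s = y s := by
    intro s hs
    have : w s = 1 := Pi.mulSingle_eq_of_ne (M := fun t => Perm {a // c a = t}) hs u
    rw [Pi.mul_apply, Pi.mul_apply, Pi.inv_apply, this]
    group
  have h3 : (w * y * w⁻¹) t = u * y t * u⁻¹ := by
    have : w t = u := Pi.mulSingle_eq_same (M := fun t => Perm {a // c a = t}) t u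
    rw [Pi.mul_apply, Pi.mul_apply, Pi.inv_apply, this]
  rw [h1, h3]
  have h4 : (u * y t * u⁻¹ = u * x * u⁻¹) ↔ y t = x := by
    constructor
    · intro h
      exact mul_left_cancel (mul_right_cancel h)
    · rintro rfl; rfl
  have h5 : F (join c (w * y * w⁻¹)) = F (join c y) := by
    rw [map_mul, map_mul, map_inv, hF]
  have h6 : ∏ s ∈ Finset.univ.erase t, β s ((w * y * w⁻¹) s)
      = ∏ s ∈ Finset.univ.erase t, β s (y s) :=
    Finset.prod_congr rfl fun s hs => by rw [h2 s (Finset.ne_of_mem_erase hs)]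
  rw [h5, h6]
  by_cases h : y t = x
  · rw [if_pos (h4.mpr h), if_pos h]
  · rw [if_neg (fun h' => h (h4.mp h')), if_neg h]

/-- the nilpotent case -/
lemma mix_nil {F : Perm α → ℂ} (hN : NilZ ι F) (c : α → ι)
    (β : ∀ t, Perm {a // c a = t} → ℂ) (hβ : ∀ t, NT (β t)) : Mf F c β = 0 := by
  classical
  choose N hNil l g hg hl hβ1 hβ2 using hβ
  have : ∀ t, Fintype (N t) := fun t => Fintype.ofFinite _
  have : ∀ t, Group.IsNilpotent (N t) := hNil
  let inc : (∀ t, N t) →* (∀ t, Perm {a // c a = t}) :=
    MonoidHom.pi fun t => (N t).subtype.comp (Pi.evalMonoidHom _ t)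
  have hinc : ∀ y t, inc y t = (y t : Perm {a // c a = t}) := fun y t => rfl
  let Λ : (∀ t, N t) →* ℂˣ := ∏ t, (l t).comp (Pi.evalMonoidHom _ t)
  have hΛ : ∀ y, Λ y = ∏ t, l t (y t) := by
    intro y
    change (∏ t, (l t).comp (Pi.evalMonoidHom _ t)) y = _
    rw [MonoidHom.finsetProd_apply]
    rfl
  have h1 := hN (∀ t, N t) ((join c).comp inc) Λ (fun t => Pi.mulSingle t (g t))
    (fun i j hij => Pi.mulSingle_commute (f := fun t => N t) hij (g i) (g j)) ?_ ?_ ?_
  · rw [finsum_eq_sum_of_fintype] at h1
    rw [← h1, Mf]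
    symm
    refine Finset.sum_of_injOn (fun y => inc y) ?_ ?_ ?_ ?_
    · intro y _ y' _ h
      funext t
      exact Subtype.ext (congrFun h t)
    · intro y _
      exact Finset.mem_coe.mpr (Finset.mem_univ _)
    · intro y _ hy
      have h2 : ∃ t, y t ∉ N t := by
        by_contra hcon
        push Not at hcon
        exact hy ⟨fun t => ⟨y t, hcon t⟩, Finset.mem_coe.mpr (Finset.mem_univ _), rfl⟩
      obtain ⟨t, ht⟩ := h2
      rw [Finset.prod_eq_zero (Finset.mem_univ t) (hβ2 t _ ht), mul_zero]
    · intro y _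
      rw [hΛ]
      change F (join c (inc y)) * _ = _
      congr 1
      rw [← Finset.prod_inv_distrib, Units.coe_prod]
      exact Finset.prod_congr rfl fun t _ => (hβ1 t (y t)).symm
  · intro i j hij
    have h2 : ∀ i, inc (Pi.mulSingle i (g i)) = Pi.mulSingle i (g i : Perm {a // c a = i}) := by
      intro i
      funext t
      rw [hinc]
      by_cases h : t = i
      · subst h
        rw [Pi.mulSingle_eq_same, Pi.mulSingle_eq_same]
      · rw [Pi.mulSingle_eq_of_ne h, Pi.mulSingle_eq_of_ne h]
        rfl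
    rw [MonoidHom.comp_apply, MonoidHom.comp_apply, h2, h2, join_single, join_single]
    exact ofSub_disj c hij _ _
  · intro i
    have h2 : inc (Pi.mulSingle i (g i)) = Pi.mulSingle i (g i : Perm {a // c a = i}) := by
      funext t
      rw [hinc]
      by_cases h : t = i
      · subst h
        rw [Pi.mulSingle_eq_same, Pi.mulSingle_eq_same]
      · rw [Pi.mulSingle_eq_of_ne h, Pi.mulSingle_eq_of_ne h]
        rfl
    rw [MonoidHom.comp_apply, h2, join_single, sign_ofSubtype]
    exact hg i
  · intro i h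
    rw [hΛ, Finset.prod_eq_single i] at h
    · rw [Pi.mulSingle_eq_same] at h
      exact hl i h
    · intro t _ ht
      rw [Pi.mulSingle_eq_of_ne ht, map_one]
    · intro h; exact absurd (Finset.mem_univ _) h

/-- mixed differences vanish -/
theorem mix {F : Perm α → ℂ} (hF : ∀ g h : Perm α, F (h * g * h⁻¹) = F g) (hN : NilZ ι F)
    (c : α → ι) (J : Finset ι) : ∀ β : (∀ t, Perm {a // c a = t} → ℂ),
    (∀ t ∈ J, ∃ x x' : Perm {a // c a = t}, sign x = sign x' ∧
      β t = Pi.single x 1 - Pi.single x' 1) → (∀ t, t ∉ J → NT (β t)) → Mf F c β = 0 := by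
  classical
  induction J using Finset.induction_on with
  | empty =>
    intro β _ h
    exact mix_nil hN c β (fun t => h t (Finset.notMem_empty t))
  | insert t J ht ih =>
    intro β h1 h2
    obtain ⟨x, x', hs, hβ⟩ := h1 t (Finset.mem_insert_self t J)
    have hone : NilOne (Mt F c β t) := by
      rintro N hNil l ⟨g, hg, hlg⟩
      have : Fintype N := Fintype.ofFinite N
      let γ : Perm {a // c a = t} → ℂ := fun y => if h : y ∈ N then (((l ⟨y, h⟩)⁻¹ : ℂˣ) : ℂ) else 0
      have hγ : NT γ := by
        refine ⟨N, hNil, l, g, hg, hlg, fun y => ?_, fun y hy => ?_⟩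
        · exact dif_pos y.2
        · exact dif_neg hy
      have h3 := ih (Function.update β t γ) (fun s hs => by
          have hst : s ≠ t := fun h => ht (h ▸ hs)
          rw [Function.update_of_ne hst]
          exact h1 s (Finset.mem_insert_of_mem hs)) (fun s hs => by
          by_cases hst : s = t
          · subst hst
            rw [Function.update_self]
            exact hγ
          · rw [Function.update_of_ne hst]
            exact h2 s (fun h => (Finset.mem_insert.mp h).elim hst hs))
      rw [Mf_eq F c β _ t (fun s hs => Function.update_of_ne hs _ _), Function.update_self] at h3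
      rw [← h3, finsum_eq_sum_of_fintype]
      refine Finset.sum_of_injOn (fun y => (y : Perm {a // c a = t})) ?_ ?_ ?_ ?_
      · intro y _ y' _ h
        exact Subtype.ext h
      · intro y _
        exact Finset.mem_coe.mpr (Finset.mem_univ _)
      · intro y _ hy
        have h4 : y ∉ N := by
          intro h
          exact hy ⟨⟨y, h⟩, Finset.mem_coe.mpr (Finset.mem_univ _), rfl⟩
        have h5 : γ y = 0 := dif_neg h4
        rw [h5, zero_mul]
      · intro y _
        have h5 : γ y = (((l y)⁻¹ : ℂˣ) : ℂ) := dif_pos y.2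
        rw [h5]
        ring
    have h3 := parity_const hone (fun g h => Mt_conj hF c β t g h) hs
    rw [Mf_eq F c β β t (fun s _ => rfl), hβ]
    have h4 : ∀ z, (Pi.single x 1 - Pi.single x' 1 : Perm {a // c a = t} → ℂ) z * Mt F c β t z
        = (if z = x then Mt F c β t z else 0) - (if z = x' then Mt F c β t z else 0) := by
      intro z
      rw [Pi.sub_apply, Pi.single_apply, Pi.single_apply]
      split_ifs <;> simp
    rw [Finset.sum_congr rfl (fun z _ => h4 z), Finset.sum_sub_distrib, Finset.sum_ite_eq',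
      Finset.sum_ite_eq', if_pos (Finset.mem_univ _), if_pos (Finset.mem_univ _), h3, sub_self]

/-- mixed differences vanish, explicit form -/
theorem mix_sum {F : Perm α → ℂ} (hF : ∀ g h : Perm α, F (h * g * h⁻¹) = F g) (hN : NilZ ι F)
    (c : α → ι) (x x' : ∀ t, Perm {a // c a = t}) (hs : ∀ t, sign (x t) = sign (x' t)) :
    ∑ S ∈ (Finset.univ : Finset ι).powerset, (-1 : ℂ) ^ S.card *
      F (join c (fun t => if t ∈ S then x' t else x t)) = 0 := by
  classical
  have h1 := mix hF hN c Finset.univ (fun t => Pi.single (x t) 1 - Pi.single (x' t) 1)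
    (fun t _ => ⟨x t, x' t, hs t, rfl⟩) (fun t ht => absurd (Finset.mem_univ t) ht)
  rw [← h1, Mf]
  have h2 : ∀ y : ∀ t, Perm {a // c a = t},
      F (join c y) * ∏ t, (Pi.single (x t) 1 - Pi.single (x' t) 1 : Perm {a // c a = t} → ℂ) (y t)
      = ∑ S ∈ (Finset.univ : Finset ι).powerset, (-1 : ℂ) ^ S.card *
        if y = (fun t => if t ∈ S then x' t else x t) then F (join c y) else 0 := by
    intro y
    have h3 : ∏ t, (Pi.single (x t) 1 - Pi.single (x' t) 1 : Perm {a // c a = t} → ℂ) (y t)
        = ∏ t, ((Pi.single (x t) 1 : Perm {a // c a = t} → ℂ) (y t)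
          - (Pi.single (x' t) 1 : Perm {a // c a = t} → ℂ) (y t)) := rfl
    rw [h3, Finset.prod_sub, Finset.mul_sum]
    refine Finset.sum_congr rfl fun S _ => ?_
    have h4 : (∏ i ∈ Finset.univ \ S, (Pi.single (x i) 1 : Perm {a // c a = i} → ℂ) (y i)) *
        ∏ i ∈ S, (Pi.single (x' i) 1 : Perm {a // c a = i} → ℂ) (y i)
        = if y = (fun t => if t ∈ S then x' t else x t) then 1 else 0 := by
      have h5 : (∏ i ∈ Finset.univ \ S, (Pi.single (x i) 1 : Perm {a // c a = i} → ℂ) (y i)) *
        ∏ i ∈ S, (Pi.single (x' i) 1 : Perm {a // c a = i} → ℂ) (y i)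
          = ∏ i, if y i = (if i ∈ S then x' i else x i) then (1 : ℂ) else 0 := by
        rw [← Finset.prod_sdiff (Finset.subset_univ S)]
        congr 1
        · refine Finset.prod_congr rfl fun i hi => ?_
          rw [if_neg (Finset.mem_sdiff.mp hi).2, Pi.single_apply]
        · refine Finset.prod_congr rfl fun i hi => ?_
          rw [if_pos hi, Pi.single_apply]
      rw [h5]
      by_cases h6 : y = (fun t => if t ∈ S then x' t else x t)
      · rw [if_pos h6]
        refine Finset.prod_eq_one fun i _ => ?_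
        rw [if_pos (congrFun h6 i)]
      · rw [if_neg h6]
        have h7 : ∃ i, y i ≠ (if i ∈ S then x' i else x i) := by
          by_contra hcon
          push Not at hcon
          exact h6 (funext hcon)
        obtain ⟨i, hi⟩ := h7
        exact Finset.prod_eq_zero (Finset.mem_univ i) (if_neg hi)
    rw [mul_assoc, h4]
    split_ifs <;> ring
  rw [Finset.sum_congr rfl (fun y _ => h2 y), Finset.sum_comm]
  refine Finset.sum_congr rfl fun S _ => ?_
  rw [← Finset.mul_sum, Finset.sum_ite_eq' Finset.univ (fun t => if t ∈ S then x' t else x t)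
    (fun y => F (join c y)), if_pos (Finset.mem_univ _)]

end

end Pool.Agent.U93.L
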