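import Mathlib
import Pool.Agent.U93.L.Mix

/-!
# Class functions as linear functionals on polynomials
-/

set_option autoImplicit false
set_option linter.unusedSectionVars false

namespace Pool.Agent.U93.L

open Equiv Equiv.Perm Pool.Agent.H302R2 Pool.Agent.U93

/-- the monomial of a multiset -/
noncomputable def mm (s : Multiset ℕ) : MvPolynomial ℕ ℂ := (s.map MvPolynomial.X).prod

@[simp] lemma mm_zero : mm 0 = 1 := by simp [mm]

lemma mm_add (s t : Multiset ℕ) : mm (s + t) = mm s * mm t := by
  rw [mm, Multiset.map_add, Multiset.prod_add]; rfl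

lemma mm_sum {ι : Type*} (s : Finset ι) (a : ι → Multiset ℕ) :
    mm (∑ i ∈ s, a i) = ∏ i ∈ s, mm (a i) := by
  classical
  induction s using Finset.induction_on with
  | empty => simp
  | insert i s hi ih => rw [Finset.sum_insert hi, Finset.prod_insert hi, mm_add, ih]

lemma mm_eq (s : Multiset ℕ) : mm s = MvPolynomial.monomial (Multiset.toFinsupp s) 1 := by
  induction s using Multiset.induction_on with
  | empty => simp [mm]
  | cons a s ih =>
    rw [← Multiset.singleton_add, mm_add, ih, map_add]
    have h1 : mm {a} = MvPolynomial.monomial (Finsupp.single a 1) 1 := by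
      simp [mm, MvPolynomial.X]
    rw [h1, Multiset.toFinsupp_singleton, MvPolynomial.monomial_mul, one_mul]

/-- the linear functional with given values on monomials -/
noncomputable def Tf (f : Multiset ℕ → ℂ) : MvPolynomial ℕ ℂ →ₗ[ℂ] ℂ :=
  (MvPolynomial.basisMonomials ℕ ℂ).constr ℂ (fun m => f (Finsupp.toMultiset m))

lemma Tf_mm (f : Multiset ℕ → ℂ) (s : Multiset ℕ) : Tf f (mm s) = f s := by
  rw [mm_eq]
  have h1 := (MvPolynomial.basisMonomials ℕ ℂ).constr_basis ℂ
    (fun m => f (Finsupp.toMultiset m)) (Multiset.toFinsupp s)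
  rw [MvPolynomial.coe_basisMonomials] at h1
  rw [Tf, h1, Multiset.toFinsupp_toMultiset]

section

variable {α ι : Type} [Fintype α] [DecidableEq α] [Fintype ι] [DecidableEq ι]

/-- a class function as a function of the cycle type -/
noncomputable def fF (F : Perm α → ℂ) (s : Multiset ℕ) : ℂ :=
  open Classical in if h : ∃ g : Perm α, g.cycleType = s then F h.choose else 0

lemma fF_eq {F : Perm α → ℂ} (hF : ∀ g h : Perm α, F (h * g * h⁻¹) = F g) (g : Perm α) :
    fF F g.cycleType = F g := by
  have h : ∃ g' : Perm α, g'.cycleType = g.cycleType := ⟨g, rfl⟩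
  rw [fF, dif_pos h]
  obtain ⟨c, hc⟩ := isConj_iff.mp (isConj_iff_cycleType_eq.mpr h.choose_spec)
  rw [← hF h.choose c, hc]

lemma Tf_cycleType {F : Perm α → ℂ} (hF : ∀ g h : Perm α, F (h * g * h⁻¹) = F g) (g : Perm α) :
    Tf (fF F) (mm g.cycleType) = F g := by rw [Tf_mm, fF_eq hF]

/-- colourings with large classes -/
lemma exists_colouring [Nonempty ι] (s : ι → ℕ) (hs : ∑ t, s t ≤ Fintype.card α) :
    ∃ c : α → ι, ∀ t, s t ≤ Fintype.card {a // c a = t} := by
  classical
  obtain ⟨e⟩ : Nonempty ((Σ t, Fin (s t)) ↪ α) :=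
    Function.Embedding.nonempty_of_card_le (by simpa using hs)
  let t₀ : ι := Classical.arbitrary ι
  let c : α → ι := fun a => if h : ∃ p, e p = a then h.choose.1 else t₀
  have hc : ∀ p, c (e p) = p.1 := by
    intro p
    have h : ∃ q, e q = e p := ⟨p, rfl⟩
    have h1 : c (e p) = h.choose.1 := dif_pos h
    rw [h1, e.injective h.choose_spec]
  refine ⟨c, fun t => ?_⟩
  have h1 : Function.Injective (fun i : Fin (s t) => (⟨e ⟨t, i⟩, hc ⟨t, i⟩⟩ : {a // c a = t})) := by
    intro i j hij
    have h2 := e.injective (congrArg Subtype.val hij)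
    simpa using h2
  simpa using Fintype.card_le_of_injective _ h1

/-- the sign of the permutations of a cycle type -/
def sg (s : Multiset ℕ) : ℤˣ := (-1) ^ (s.sum + s.card)

lemma sg_cycleType (g : Perm α) : sign g = sg g.cycleType := sign_of_cycleType g

/-- products of differences, one for each colour -/
theorem star_zero [Nonempty ι] {F : Perm α → ℂ} (hF : ∀ g h : Perm α, F (h * g * h⁻¹) = F g)
    (hN : NilZ ι F) (a b : ι → Multiset ℕ) (ha : ∀ t, ∀ x ∈ a t, 2 ≤ x)
    (hb : ∀ t, ∀ x ∈ b t, 2 ≤ x) (hs : ∀ t, sg (a t) = sg (b t))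
    (hw : ∑ t, max (a t).sum (b t).sum ≤ Fintype.card α) :
    Tf (fF F) (∏ t, (mm (a t) - mm (b t))) = 0 := by
  classical
  obtain ⟨c, hc⟩ := exists_colouring (α := α) _ hw
  have hx : ∀ t, ∃ x : Perm {y // c y = t}, x.cycleType = a t := fun t =>
    (exists_with_cycleType_iff _).mpr ⟨(le_max_left _ _).trans (hc t), ha t⟩
  have hx' : ∀ t, ∃ x : Perm {y // c y = t}, x.cycleType = b t := fun t =>
    (exists_with_cycleType_iff _).mpr ⟨(le_max_right _ _).trans (hc t), hb t⟩
  choose x hx using hx
  choose x' hx' using hx'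
  have h1 := mix_sum hF hN c x x' (fun t => by rw [sg_cycleType, sg_cycleType, hx, hx', hs])
  rw [Finset.prod_sub, map_sum, ← h1]
  refine Finset.sum_congr rfl fun S _ => ?_
  have h2 : (∏ i ∈ Finset.univ \ S, mm (a i)) * ∏ i ∈ S, mm (b i)
      = mm (join c (fun t => if t ∈ S then x' t else x t)).cycleType := by
    rw [join_cycleType, mm_sum, ← Finset.prod_sdiff (Finset.subset_univ S)]
    congr 1
    · refine Finset.prod_congr rfl fun i hi => ?_
      rw [if_neg (Finset.mem_sdiff.mp hi).2, hx]
    · refine Finset.prod_congr rfl fun i hi => ?_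
      rw [if_pos hi, hx']
  rw [mul_assoc, h2]
  have h3 : ((-1 : MvPolynomial ℕ ℂ) ^ S.card) * mm (join c (fun t => if t ∈ S then x' t else x t)).cycleType
      = ((-1 : ℂ) ^ S.card) • mm (join c (fun t => if t ∈ S then x' t else x t)).cycleType := by
    rw [MvPolynomial.smul_eq_C_mul, map_pow, map_neg, map_one]
  rw [h3, map_smul, Tf_cycleType hF, smul_eq_mul]

/-- products of differences with a further factor -/
theorem star [Nonempty ι] {F : Perm α → ℂ} (hF : ∀ g h : Perm α, F (h * g * h⁻¹) = F g)
    (hN : NilZ ι F) (a b : ι → Multiset ℕ) (c : Multiset ℕ) (ha : ∀ t, ∀ x ∈ a t, 2 ≤ x)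
    (hb : ∀ t, ∀ x ∈ b t, 2 ≤ x) (hc : ∀ x ∈ c, 2 ≤ x) (hs : ∀ t, sg (a t) = sg (b t))
    (hw : ∑ t, max (a t).sum (b t).sum + c.sum ≤ Fintype.card α) :
    Tf (fF F) ((∏ t, (mm (a t) - mm (b t))) * mm c) = 0 := by
  classical
  let t₀ : ι := Classical.arbitrary ι
  let d : ι → Multiset ℕ := fun t => if t = t₀ then c else 0
  have hd : ∀ t, ∀ x ∈ d t, 2 ≤ x := by
    intro t x hx
    by_cases h : t = t₀
    · simp only [d, if_pos h] at hx
      exact hc x hx
    · simp only [d, if_neg h] at hx
      exact absurd hx (Multiset.notMem_zero _)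
  have h1 := star_zero hF hN (fun t => a t + d t) (fun t => b t + d t)
    (fun t x hx => (Multiset.mem_add.mp hx).elim (ha t x) (hd t x))
    (fun t x hx => (Multiset.mem_add.mp hx).elim (hb t x) (hd t x))
    (fun t => by
      have h2 := hs t
      unfold sg at h2 ⊢
      rw [Multiset.sum_add, Multiset.card_add, Multiset.sum_add, Multiset.card_add,
        show (a t).sum + (d t).sum + ((a t).card + (d t).card)
          = ((a t).sum + (a t).card) + ((d t).sum + (d t).card) by ring,
        show (b t).sum + (d t).sum + ((b t).card + (d t).card)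
          = ((b t).sum + (b t).card) + ((d t).sum + (d t).card) by ring, pow_add, h2, ← pow_add])
    (by
      refine le_trans (le_of_eq ?_) hw
      have h2 : ∀ t, max (a t + d t).sum (b t + d t).sum = max (a t).sum (b t).sum + (d t).sum := by
        intro t
        rw [Multiset.sum_add, Multiset.sum_add, max_add_add_right]
      rw [Finset.sum_congr rfl (fun t _ => h2 t), Finset.sum_add_distrib]
      congr 1
      rw [Finset.sum_eq_single t₀]
      · simp only [d, if_pos rfl, if_true]
      · intro t _ ht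
        simp only [d, if_neg ht, Multiset.sum_zero]
      · intro h; exact absurd (Finset.mem_univ _) h)
  rw [← h1]
  congr 1
  have h2 : ∀ t, mm (a t + d t) - mm (b t + d t) = (mm (a t) - mm (b t)) * mm (d t) := by
    intro t
    rw [mm_add, mm_add]; ring
  rw [Finset.prod_congr rfl (fun t _ => h2 t), Finset.prod_mul_distrib]
  congr 1
  rw [Finset.prod_eq_single t₀]
  · simp only [d, if_pos rfl, if_true]
  · intro t _ ht
    simp only [d, if_neg ht, mm_zero]
  · intro h; exact absurd (Finset.mem_univ _) h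

end

end Pool.Agent.U93.L
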