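import Mathlib
import Pool.Agent.U93.L.Star
import Pool.Agent.U93.L.Div

/-!
# Class functions with the vanishing property are orthogonal to functions whose coset sums vanish
-/

set_option autoImplicit false
set_option linter.unusedSectionVars false

namespace Pool.Agent.U93.L

open Equiv Equiv.Perm

variable {α : Type} [Fintype α] [DecidableEq α]

/-- the replacement of a cycle: a transposition or the identity -/
def ee (l : ℕ) : Multiset ℕ := if Even l then {2} else 0

/-- the difference for a cycle -/
noncomputable def zz (l : ℕ) : MvPolynomial ℕ ℂ := mm {l} - mm (ee l)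

/-- the variable of a transposition -/
noncomputable def yy : MvPolynomial ℕ ℂ := mm {2}

lemma mm_rep (i : ℕ) : mm (Multiset.replicate i 2) = yy ^ i := by
  rw [mm, Multiset.map_replicate, Multiset.prod_replicate, yy, mm]
  simp

lemma mm_cycleType (g : Perm α) :
    mm g.cycleType = ∏ C ∈ g.cycleFactorsFinset, mm {C.support.card} := by
  rw [mm, cycleType_def, Multiset.map_map, Finset.prod_eq_multiset_prod]
  congr 1
  refine Multiset.map_congr rfl fun C _ => ?_
  simp [mm]

lemma prod_ee (g : Perm α) :
    ∏ C ∈ g.cycleFactorsFinset, mm (ee C.support.card) = yy ^ ev g := by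
  rw [ev, ← Finset.prod_const, Finset.prod_filter]
  refine Finset.prod_congr rfl fun C _ => ?_
  unfold ee yy
  split_ifs <;> simp

lemma sg_ee (l : ℕ) : sg {l} = sg (ee l) := by
  unfold sg ee
  by_cases h : Even l
  · rw [if_pos h, Multiset.sum_singleton, Multiset.card_singleton, h.add_one.neg_one_pow]
    simp only [Multiset.sum_singleton, Multiset.card_singleton]
    rfl
  · rw [if_neg h, Multiset.sum_singleton, Multiset.card_singleton,
      (Nat.not_even_iff_odd.mp h).add_one.neg_one_pow]
    simp

lemma sg_two_two : sg {2, 2} = sg 0 := by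
  unfold sg
  rw [show ({2, 2} : Multiset ℕ).sum + ({2, 2} : Multiset ℕ).card = 6 from rfl]
  rfl

/-- the product of the differences of the cycles -/
noncomputable def Zh (h : Perm α) : MvPolynomial ℕ ℂ :=
  ∏ C ∈ h.cycleFactorsFinset, zz C.support.card

/-- the vanishing of the functional -/
lemma Tf_zero {k : ℕ} (hk : 1 ≤ k) {F : Perm α → ℂ}
    (hF : ∀ g h : Perm α, F (h * g * h⁻¹) = F g) (hN : NilZ (Fin k) F) (h : Perm α) (m i : ℕ)
    (hm : k ≤ h.cycleFactorsFinset.card + m)
    (hw : h.support.card + 4 * m + 2 * i ≤ Fintype.card α) :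
    Tf (fF F) (Zh h * (yy ^ 2 - 1) ^ m * yy ^ i) = 0 := by
  classical
  let ι := {C // C ∈ h.cycleFactorsFinset} ⊕ Fin m
  have hcard : Fintype.card ι = h.cycleFactorsFinset.card + m := by
    rw [Fintype.card_sum, Fintype.card_coe, Fintype.card_fin]
  have hne : Nonempty ι := by
    rw [← Fintype.card_pos_iff, hcard]; omega
  obtain ⟨e⟩ : Nonempty (Fin k ↪ ι) := Function.Embedding.nonempty_of_card_le (by
    rw [Fintype.card_fin, hcard]; exact hm)
  have hN' : NilZ ι F := hN.emb e
  have h2 : ∀ C : {C // C ∈ h.cycleFactorsFinset}, 2 ≤ (C : Perm α).support.card := fun C =>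
    (mem_cycleFactorsFinset_iff.mp C.2).1.two_le_card_support
  have h1 := star hF hN' (Sum.elim (fun C => {(C : Perm α).support.card}) (fun _ => {2, 2}))
    (Sum.elim (fun C => ee (C : Perm α).support.card) (fun _ => 0)) (Multiset.replicate i 2)
    (by
      rintro (C | j) x hx
      · simp only [Sum.elim_inl, Multiset.mem_singleton] at hx
        rw [hx]; exact h2 C
      · simp only [Sum.elim_inr, Multiset.insert_eq_cons, Multiset.mem_cons,
          Multiset.mem_singleton, or_self] at hx
        rw [hx])
    (by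
      rintro (C | j) x hx
      · simp only [Sum.elim_inl, ee] at hx
        split_ifs at hx
        · rw [Multiset.mem_singleton] at hx; rw [hx]
        · exact absurd hx (Multiset.notMem_zero _)
      · exact absurd hx (Multiset.notMem_zero _))
    (by
      intro x hx
      rw [Multiset.eq_of_mem_replicate hx])
    (by
      rintro (C | j)
      · exact sg_ee _
      · exact sg_two_two)
    (by
      refine le_trans (le_of_eq ?_) hw
      rw [Fintype.sum_sum_type]
      simp only [Sum.elim_inl, Sum.elim_inr, Multiset.sum_singleton, Multiset.sum_replicate,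
        smul_eq_mul, Multiset.sum_zero]
      have h3 : ∑ x : {C // C ∈ h.cycleFactorsFinset},
          max (x : Perm α).support.card (ee (x : Perm α).support.card).sum = h.support.card := by
        have h5 : h.support.card = ∑ C : {C // C ∈ h.cycleFactorsFinset},
            (C : Perm α).support.card := by
          rw [Finset.sum_coe_sort h.cycleFactorsFinset (fun C => C.support.card), ← sum_cycleType h,
            cycleType_def]
          rfl
        rw [h5]
        refine Finset.sum_congr rfl fun C _ => ?_
        refine max_eq_left ?_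
        unfold ee
        split_ifs
        · rw [Multiset.sum_singleton]; exact h2 C
        · rw [Multiset.sum_zero]; omega
      rw [h3]
      have h4 : ({2, 2} : Multiset ℕ).sum = 4 := rfl
      rw [h4]
      simp only [Nat.zero_le, max_eq_left, Finset.sum_const, Finset.card_univ, Fintype.card_fin,
        smul_eq_mul]
      ring)
  rw [← h1]
  congr 1
  rw [Fintype.prod_sum_type, mm_rep]
  congr 1
  congr 1
  · rw [Zh, ← Finset.prod_coe_sort]
    rfl
  · simp only [Sum.elim_inr, mm_zero, Finset.prod_const, Finset.card_univ, Fintype.card_fin]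
    congr 2
    rw [show ({2, 2} : Multiset ℕ) = {2} + {2} from rfl, mm_add, yy, sq]

/-- The main orthogonality theorem. -/
theorem pair_main {k : ℕ} (hk : 1 ≤ k) {F : Perm α → ℂ}
    (hF : ∀ g h : Perm α, F (h * g * h⁻¹) = F g) (hN : NilZ (Fin k) F) {X : Perm α → ℂ}
    (hX : CosZ k X) : ∑ g, F g * X g = 0 := by
  classical
  have h1 : ∀ g : Perm α, F g * X g = ∑ A ∈ g.cycleFactorsFinset.powerset,
      X g * Tf (fF F) ((∏ C ∈ A, zz C.support.card) *
        ∏ C ∈ g.cycleFactorsFinset \ A, mm (ee C.support.card)) := by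
    intro g
    rw [← Finset.mul_sum, ← map_sum, ← Finset.prod_add, mul_comm]
    congr 1
    rw [← Tf_cycleType hF, mm_cycleType]
    congr 1
    refine Finset.prod_congr rfl fun C _ => ?_
    rw [zz, sub_add_cancel]
  rw [Finset.sum_congr rfl (fun g _ => h1 g), sum_marked (fun g A =>
    X g * Tf (fF F) ((∏ C ∈ A, zz C.support.card) *
        ∏ C ∈ g.cycleFactorsFinset \ A, mm (ee C.support.card)))]
  refine Finset.sum_eq_zero fun h _ => ?_
  have h2 : ∀ u ∈ Dj h, X (h * u) * Tf (fF F) ((∏ C ∈ h.cycleFactorsFinset, zz C.support.card) *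
        ∏ C ∈ (h * u).cycleFactorsFinset \ h.cycleFactorsFinset, mm (ee C.support.card))
      = Tf (fF F) (Zh h * Polynomial.aeval yy (Polynomial.C (X (h * u)) * Polynomial.X ^ ev u)) := by
    intro u hu
    rw [mem_Dj] at hu
    have h3 : (h * u).cycleFactorsFinset \ h.cycleFactorsFinset = u.cycleFactorsFinset := by
      rw [hu.cycleFactorsFinset_mul_eq_union, Finset.union_sdiff_left, Finset.sdiff_eq_self_iff_disjoint]
      exact hu.disjoint_cycleFactorsFinset.symm
    have h4 : Polynomial.aeval yy (Polynomial.C (X (h * u)) * Polynomial.X ^ ev u)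
        = MvPolynomial.C (X (h * u)) * yy ^ ev u := by
      rw [map_mul, Polynomial.aeval_C, map_pow, Polynomial.aeval_X, MvPolynomial.algebraMap_eq]
    rw [h3, prod_ee, h4, ← smul_eq_mul, ← map_smul]
    congr 1
    rw [MvPolynomial.smul_eq_C_mul, Zh]
    ring
  rw [Finset.sum_congr rfl h2, ← map_sum, ← Finset.mul_sum, ← map_sum]
  change Tf (fF F) (Zh h * Polynomial.aeval yy (Pg X h)) = 0
  set m := k - h.cycleFactorsFinset.card with hm
  have hdvd : (Polynomial.X ^ 2 - 1) ^ m ∣ Pg X h := by
    by_cases hkj : h.cycleFactorsFinset.card ≤ k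
    · exact dvd_both hX h m (by omega)
    · have : m = 0 := by omega
      rw [this, pow_zero]
      exact one_dvd _
  by_cases hP : Pg X h = 0
  · rw [hP, map_zero, mul_zero, map_zero]
  obtain ⟨Q, hQ⟩ := hdvd
  have hQ0 : Q ≠ 0 := by
    rintro rfl
    exact hP (by rw [hQ, mul_zero])
  have hmon : ((Polynomial.X ^ 2 - 1 : Polynomial ℂ) ^ m).Monic := by
    refine Polynomial.Monic.pow ?_ m
    have := Polynomial.monic_X_pow_sub_C (1 : ℂ) (n := 2) (by norm_num)
    simpa using this
  have hdeg : (Pg X h).natDegree = 2 * m + Q.natDegree := by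
    rw [hQ, hmon.natDegree_mul' hQ0]
    congr 1
    rw [Polynomial.natDegree_pow]
    have := Polynomial.natDegree_X_pow_sub_C (n := 2) (r := (1 : ℂ))
    rw [Polynomial.C_1] at this
    rw [this, mul_comm]
  have hwt := Pg_natDegree X h
  have h5 : Polynomial.aeval yy (Pg X h) = (yy ^ 2 - 1) ^ m * Polynomial.aeval yy Q := by
    rw [hQ, map_mul, map_pow, map_sub, map_pow, Polynomial.aeval_X, map_one]
  have h6 : Polynomial.aeval yy Q
      = ∑ i ∈ Finset.range (Q.natDegree + 1), MvPolynomial.C (Q.coeff i) * yy ^ i := by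
    conv_lhs => rw [Q.as_sum_range_C_mul_X_pow]
    rw [map_sum]
    refine Finset.sum_congr rfl fun i _ => ?_
    rw [map_mul, Polynomial.aeval_C, map_pow, Polynomial.aeval_X, MvPolynomial.algebraMap_eq]
  rw [h5, h6, ← mul_assoc, Finset.mul_sum, map_sum]
  refine Finset.sum_eq_zero fun i hi => ?_
  rw [Finset.mem_range] at hi
  have h3 : Zh h * (yy ^ 2 - 1) ^ m * (MvPolynomial.C (Q.coeff i) * yy ^ i)
      = Q.coeff i • (Zh h * (yy ^ 2 - 1) ^ m * yy ^ i) := by
    rw [MvPolynomial.smul_eq_C_mul]
    ring
  rw [h3, map_smul, Tf_zero hk hF hN h m i (by omega) (by omega), smul_zero]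

end Pool.Agent.U93.L
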