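import Mathlib
import Pool.Agent.U93.L.Div
import Pool.Agent.N850.Dur.Vanish

/-!
# Characters without constituents in a hook vanish on sums over cosets
-/

set_option autoImplicit false
set_option linter.unusedSectionVars false

namespace Pool.Agent.U93.L

open Equiv Equiv.Perm Finset Pool.Agent.N850.Art Pool.Agent.N850.Dur

section ring

variable {α κ : Type*} [Fintype α] [DecidableEq α] [DecidableEq κ] {R : Type*} [Ring R]

lemma sc_empty (ρ : Perm α →* R) (c : α → κ) : sc ρ c ∅ = 1 := by
  rw [sc, Sc_inj (by simp), sum_singleton, map_one]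

lemma sc_union (ρ : Perm α →* R) (c : α → κ) {A Z : Finset α} (hAZ : ∀ a ∈ A, a ∉ Z)
    (hc : ∀ a ∈ A, ∀ z ∈ Z, c z ≠ c a) : sc ρ c (A ∪ Z) = sc ρ c A * sc ρ c Z := by
  induction A using Finset.induction_on with
  | empty => rw [empty_union, sc_empty, one_mul]
  | insert z A hz ih =>
    have h1 : z ∉ A ∪ Z := by
      rw [mem_union, not_or]
      exact ⟨hz, hAZ z (mem_insert_self z A)⟩
    have h2 : (A ∪ Z).filter (fun j => c j = c z) = A.filter (fun j => c j = c z) := by
      ext j
      rw [mem_filter, mem_filter, mem_union]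
      constructor
      · rintro ⟨h3 | h3, h4⟩
        · exact ⟨h3, h4⟩
        · exact absurd h4 (hc z (mem_insert_self z A) j h3)
      · rintro ⟨h3, h4⟩
        exact ⟨Or.inl h3, h4⟩
    rw [insert_union, sc_insert ρ c h1, sc_insert ρ c hz, h2,
      ih (fun a ha => hAZ a (mem_insert_of_mem ha)) (fun a ha => hc a (mem_insert_of_mem ha)),
      mul_assoc]

end ring

section vect

variable {α : Type} [Fintype α] [DecidableEq α] {V : Type*} [AddCommGroup V] [Module ℂ V]
  [FiniteDimensional ℂ V] (ρ : Perm α →* Module.End ℂ V)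

/-- the trace form of the vanishing of coset sums -/
theorem cos_trace (k : ℕ)
    (hH : ∀ (c : α → Fin k) (P : Finset α), sc (tw ρ) c P * sc ρ c Pᶜ = 0)
    {T : Module.End ℂ V} (hT : ∀ y, T * ρ y = ρ y * T) (h : Perm α)
    (hk : h.cycleFactorsFinset.card < k) :
    LinearMap.trace ℂ V (ρ h * (∑ u ∈ Dj h, ρ u) * T) = 0 ∧
    LinearMap.trace ℂ V (ρ h * (∑ u ∈ Dj h, tw ρ u) * T) = 0 := by
  classical
  obtain ⟨k', rfl⟩ : ∃ k', k = k' + 1 := ⟨k - 1, by omega⟩
  obtain ⟨e⟩ : Nonempty ({C // C ∈ h.cycleFactorsFinset} ↪ Fin k') :=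
    Function.Embedding.nonempty_of_card_le (by
      rw [Fintype.card_coe, Fintype.card_fin]; omega)
  let c₁ : α → Fin (k' + 1) := fun u => if hu : h u = u then Fin.last k' else
    Fin.castSucc (e ⟨h.cycleOf u, cycleOf_mem_cycleFactorsFinset_iff.mpr (mem_support.mpr hu)⟩)
  have hc₁fix : ∀ u, h u = u → c₁ u = Fin.last k' := fun u hu => dif_pos hu
  have hc₁ne : ∀ u, h u ≠ u → c₁ u ≠ Fin.last k' := by
    intro u hu
    have : c₁ u = Fin.castSucc (e ⟨h.cycleOf u,
      cycleOf_mem_cycleFactorsFinset_iff.mpr (mem_support.mpr hu)⟩) := dif_neg hu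
    rw [this]
    exact (Fin.castSucc_lt_last _).ne
  have h12 : ∀ u v, h u ≠ u → (c₁ v = c₁ u ↔ cyc h v = cyc h u) := by
    intro u v hu
    by_cases hv : h v = v
    · constructor
      · intro h1
        rw [hc₁fix v hv] at h1
        exact absurd h1.symm (hc₁ne u hu)
      · intro h1
        rw [cyc_fixed hv] at h1
        have h2 := self_mem_cyc h u
        rw [← h1, mem_singleton] at h2
        rw [h2] at hu
        exact absurd hv hu
    · have e1 : c₁ u = Fin.castSucc (e ⟨h.cycleOf u,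
        cycleOf_mem_cycleFactorsFinset_iff.mpr (mem_support.mpr hu)⟩) := dif_neg hu
      have e2 : c₁ v = Fin.castSucc (e ⟨h.cycleOf v,
        cycleOf_mem_cycleFactorsFinset_iff.mpr (mem_support.mpr hv)⟩) := dif_neg hv
      rw [e1, e2, (Fin.castSucc_injective k').eq_iff, e.injective.eq_iff, Subtype.mk.injEq]
      constructor
      · intro h1
        rw [← support_cycleOf hv, ← support_cycleOf hu, h1]
      · intro h1
        exact (cyc_eq_iff.mp h1).cycleOf_eq
  -- representatives
  let out : α → α := fun u => Quotient.out (Quotient.mk (SameCycle.setoid h) u)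
  have hout : ∀ u, h.SameCycle (out u) u := fun u => Quotient.mk_out (s := SameCycle.setoid h) u
  let X : Finset α := univ.image out
  have hX : ∀ x ∈ X, ∀ y ∈ X, cyc h x = cyc h y → x = y := by
    intro x hx y hy hxy
    obtain ⟨u, -, rfl⟩ := mem_image.mp hx
    obtain ⟨v, -, rfl⟩ := mem_image.mp hy
    have h1 : h.SameCycle u v := (hout u).symm.trans ((cyc_eq_iff.mp hxy).trans (hout v))
    have h2 : (Quotient.mk (SameCycle.setoid h) u) = Quotient.mk (SameCycle.setoid h) v :=
      Quotient.sound h1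
    change Quotient.out _ = Quotient.out _
    rw [h2]
  have hX2 : ∀ z, ∃ x ∈ X, cyc h x = cyc h z := fun z =>
    ⟨out z, mem_image_of_mem _ (mem_univ z), cyc_eq_iff.mpr (hout z)⟩
  have hXfix : ∀ z, h z = z → z ∈ X := by
    intro z hz
    obtain ⟨x, hx, hxz⟩ := hX2 z
    have h1 := self_mem_cyc h x
    rw [hxz, cyc_fixed hz, mem_singleton] at h1
    rw [← h1]; exact hx
  obtain ⟨L, hL0, hL, hsum⟩ := altc_eq_sum ρ hX hX2
  set B := h.support with hB
  have hBm : ∀ u, u ∈ B ↔ h u ≠ u := fun u => mem_support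
  -- comparison of the two colourings
  have hcol : ∀ y : Perm α, (∀ z, h z = z → y z = z) →
      ((∀ z, cyc h (y z) = cyc h z) ↔ ∀ z, c₁ (y z) = c₁ z) := by
    intro y hy
    constructor
    · intro h1 z
      by_cases hz : h z = z
      · rw [hy z hz]
      · exact (h12 z (y z) hz).mpr (h1 z)
    · intro h1 z
      by_cases hz : h z = z
      · rw [hy z hz]
      · exact (h12 z (y z) hz).mp (h1 z)
  have hScA : ∀ A, A ⊆ B → Sc (cyc h) A = Sc c₁ A := by
    intro A hA
    ext y
    rw [mem_Sc, mem_Sc]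
    refine and_congr_right fun h1 => hcol y fun z hz => h1 z fun hzA => ?_
    exact (hBm z).mp (hA hzA) hz
  have hScB : ∀ A, A ⊆ B → Sc (cyc h) (univ \ A) = Sc c₁ (B \ A) := by
    intro A hA
    ext y
    rw [mem_Sc, mem_Sc]
    constructor
    · rintro ⟨h1, h2⟩
      have h3 : ∀ z, h z = z → y z = z := by
        intro z hz
        have h4 := self_mem_cyc h (y z)
        rw [h2, cyc_fixed hz, mem_singleton] at h4
        exact h4
      refine ⟨fun z hz => ?_, (hcol y h3).mp h2⟩
      rw [mem_sdiff, not_and_or, not_not] at hz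
      rcases hz with hz | hz
      · rw [hBm, not_not] at hz
        exact h3 z hz
      · exact h1 z (fun h5 => (mem_sdiff.mp h5).2 hz)
    · rintro ⟨h1, h2⟩
      have h3 : ∀ z, h z = z → y z = z := by
        intro z hz
        refine h1 z fun h4 => ?_
        exact (hBm z).mp (mem_sdiff.mp h4).1 hz
      refine ⟨fun z hz => h1 z fun h4 => hz ?_, (hcol y h3).mpr h2⟩
      exact mem_sdiff.mpr ⟨mem_univ _, (mem_sdiff.mp h4).2⟩
  have hScZ : Sc c₁ Bᶜ = Dj h := by
    ext y
    rw [mem_Sc, mem_Dj]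
    constructor
    · rintro ⟨h1, -⟩ z
      by_cases hz : h z = z
      · exact Or.inl hz
      · refine Or.inr (h1 z ?_)
        rw [mem_compl, not_not, hBm]
        exact hz
    · intro h1
      refine ⟨fun z hz => ?_, fun z => ?_⟩
      · rw [mem_compl, not_not, hBm] at hz
        exact (h1 z).resolve_left hz
      · by_cases hz : h z = z
        · rw [hc₁fix z hz]
          refine hc₁fix _ ?_
          by_contra h2
          have h3 := (h1 (y z)).resolve_left h2
          rw [y.injective h3] at h2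
          exact h2 hz
        · rw [(h1 z).resolve_left hz]
  -- colours
  have hcolB : ∀ A, A ⊆ B → ∀ a ∈ A, ∀ z ∈ Bᶜ, c₁ z ≠ c₁ a := by
    intro A hA a ha z hz h1
    rw [mem_compl, hBm, not_not] at hz
    rw [hc₁fix z hz] at h1
    exact hc₁ne a ((hBm a).mp (hA ha)) h1.symm
  have hXB : univ \ X ⊆ B := by
    intro z hz
    rw [hBm]
    intro h1
    exact (mem_sdiff.mp hz).2 (hXfix z h1)
  have halt1 : altc ρ (cyc h) X univ * (∑ u ∈ Dj h, ρ u) = 0 := by
    rw [altc, sum_mul]
    refine sum_eq_zero fun A hA => ?_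
    have hAB : A ⊆ B := (mem_powerset.mp hA).trans hXB
    have e1 : sc (tw ρ) (cyc h) A = sc (tw ρ) c₁ A := by rw [sc, sc, hScA A hAB]
    have e2 : sc ρ (cyc h) (univ \ A) = sc ρ c₁ (B \ A) := by rw [sc, sc, hScB A hAB]
    have e3 : (∑ u ∈ Dj h, ρ u) = sc ρ c₁ Bᶜ := by rw [sc, hScZ]
    have e4 : sc ρ c₁ (B \ A) * sc ρ c₁ Bᶜ = sc ρ c₁ Aᶜ := by
      rw [← sc_union ρ c₁ (fun a ha => by
        rw [mem_compl, not_not]; exact (mem_sdiff.mp ha).1) (hcolB _ sdiff_subset)]
      congr 1
      ext z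
      rw [mem_union, mem_sdiff, mem_compl, mem_compl]
      constructor
      · rintro (h1 | h1)
        · exact h1.2
        · exact fun h2 => h1 (hAB h2)
      · intro h1
        by_cases h2 : z ∈ B
        · exact Or.inl ⟨h2, h1⟩
        · exact Or.inr h2
    rw [e1, e2, e3, mul_assoc, mul_assoc, e4, hH, mul_zero]
  have halt2 : altc ρ (cyc h) X univ * (∑ u ∈ Dj h, tw ρ u) = 0 := by
    rw [altc, sum_mul]
    refine sum_eq_zero fun A hA => ?_
    have hAB : A ⊆ B := (mem_powerset.mp hA).trans hXB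
    have e1 : sc (tw ρ) (cyc h) A = sc (tw ρ) c₁ A := by rw [sc, sc, hScA A hAB]
    have e2 : sc ρ (cyc h) (univ \ A) = sc ρ c₁ (B \ A) := by rw [sc, sc, hScB A hAB]
    have e3 : (∑ u ∈ Dj h, tw ρ u) = sc (tw ρ) c₁ Bᶜ := by rw [sc, hScZ]
    have e4 : sc (tw ρ) c₁ A * sc (tw ρ) c₁ Bᶜ = sc (tw ρ) c₁ (A ∪ Bᶜ) := by
      rw [← sc_union (tw ρ) c₁ (fun a ha => by
        rw [mem_compl, not_not]; exact hAB ha) (hcolB _ hAB)]
    have e5 : B \ A = (A ∪ Bᶜ)ᶜ := by
      ext z
      rw [mem_sdiff, mem_compl, mem_union, mem_compl, not_or, not_not]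
      exact and_comm
    have e6 := sc_comm_sc ρ c₁ (A := Bᶜ) (B := B \ A) (by
      rw [Finset.disjoint_left]
      intro z hz hz2
      exact (mem_compl.mp hz) (mem_sdiff.mp hz2).1)
    rw [e1, e2, e3, mul_assoc, mul_assoc, ← e6, ← mul_assoc (sc (tw ρ) c₁ A), e4, e5, hH,
      mul_zero]
  -- conjugation
  have hconj : ∀ (σ : Perm α → Module.End ℂ V), (∀ d u, ρ d * σ u = σ (d * u * d⁻¹) * ρ d) →
      altc ρ (cyc h) X univ * (∑ u ∈ Dj h, σ u) = 0 →
      LinearMap.trace ℂ V (ρ h * (∑ u ∈ Dj h, σ u) * T) = 0 := by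
    intro σ hσ halt
    set E := ∑ u ∈ Dj h, σ u with hE
    have key : ∀ y ∈ L, LinearMap.trace ℂ V (ρ y * E * T) = LinearMap.trace ℂ V (ρ h * E * T) := by
      intro y hy
      have hcy : ∀ u, cyc y u = cyc h u := by
        intro u
        rw [hL y hy u]
        ext v
        rw [mem_filter, mem_cyc]
        constructor
        · rintro ⟨-, h1⟩
          exact (cyc_eq_iff.mp h1).symm
        · intro h1
          exact ⟨mem_univ _, cyc_eq_iff.mpr h1.symm⟩
      obtain ⟨d, hd⟩ := isConj_iff.mp (isConj_of_cyc hcy).symm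
      -- `d * h * d⁻¹ = y`
      have hsupp : y.support = h.support := by
        ext u
        rw [mem_support, mem_support]
        have h1 : ∀ g : Perm α, g u = u ↔ (cyc g u).card = 1 := fun g =>
          ⟨fun h1 => by rw [cyc_fixed h1, card_singleton], fixed_of_card⟩
        rw [Ne, Ne, h1, h1, hcy]
      have hdj : ∀ u, Equiv.Perm.Disjoint h u → Equiv.Perm.Disjoint h (d * u * d⁻¹) := by
        intro u hu
        have h1 : Equiv.Perm.Disjoint (d * h * d⁻¹) (d * u * d⁻¹) := hu.conj d
        rw [hd, disjoint_iff_disjoint_support, hsupp, ← disjoint_iff_disjoint_support] at h1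
        exact h1
      have hsupp' : (d⁻¹ * h * d).support = h.support := by
        have h1 : h.support = (d * h * d⁻¹).support := by rw [hd, hsupp]
        rw [support_conj] at h1
        ext u
        have h2 : d u ∈ h.support ↔ u ∈ h.support := by
          conv_lhs => rw [h1]
          rw [Finset.mem_map_equiv]
          simp
        rw [mem_support] at h2
        rw [mem_support, ← h2, Perm.mul_apply, Perm.mul_apply, Ne, Ne, Perm.inv_eq_iff_eq]
      have hdj' : ∀ u, Equiv.Perm.Disjoint h u → Equiv.Perm.Disjoint h (d⁻¹ * u * d) := by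
        intro u hu
        have h1 : Equiv.Perm.Disjoint (d⁻¹ * h * d⁻¹⁻¹) (d⁻¹ * u * d⁻¹⁻¹) := hu.conj d⁻¹
        rw [inv_inv, disjoint_iff_disjoint_support, hsupp', ← disjoint_iff_disjoint_support] at h1
        exact h1
      have hEd : ρ d * E = E * ρ d := by
        rw [hE, mul_sum, sum_mul]
        refine sum_nbij' (fun u => d * u * d⁻¹) (fun u => d⁻¹ * u * d) ?_ ?_ ?_ ?_ ?_
        · intro u hu
          rw [mem_Dj] at hu ⊢
          exact hdj u hu
        · intro u hu
          rw [mem_Dj] at hu ⊢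
          exact hdj' u hu
        · intro u _; group
        · intro u _; group
        · intro u _; exact hσ d u
      have h1 : ρ y * E * T = ρ d * (ρ h * E * T * ρ d⁻¹) := by
        have e1 : ρ d⁻¹ * E = E * ρ d⁻¹ := by
          have h3 : ρ d⁻¹ * ρ d = 1 := by rw [← map_mul, inv_mul_cancel, map_one]
          have h4 : ρ d * ρ d⁻¹ = 1 := by rw [← map_mul, mul_inv_cancel, map_one]
          calc ρ d⁻¹ * E = ρ d⁻¹ * (E * ρ d) * ρ d⁻¹ := by
                rw [mul_assoc, mul_assoc, h4, mul_one]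
            _ = ρ d⁻¹ * (ρ d * E) * ρ d⁻¹ := by rw [hEd]
            _ = (ρ d⁻¹ * ρ d) * E * ρ d⁻¹ := by noncomm_ring
            _ = E * ρ d⁻¹ := by rw [h3, one_mul]
        rw [← hd, map_mul, map_mul]
        calc ρ d * ρ h * ρ d⁻¹ * E * T = ρ d * ρ h * (ρ d⁻¹ * E) * T := by noncomm_ring
          _ = ρ d * ρ h * (E * ρ d⁻¹) * T := by rw [e1]
          _ = ρ d * ρ h * E * (ρ d⁻¹ * T) := by noncomm_ring
          _ = ρ d * ρ h * E * (T * ρ d⁻¹) := by rw [hT]
          _ = ρ d * (ρ h * E * T * ρ d⁻¹) := by noncomm_ring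
      rw [h1, LinearMap.trace_mul_comm, mul_assoc, ← map_mul, inv_mul_cancel, map_one, mul_one]
    have h1 : LinearMap.trace ℂ V (altc ρ (cyc h) X univ * E * T)
        = (L.card : ℂ) * LinearMap.trace ℂ V (ρ h * E * T) := by
      rw [hsum, ← Multiset.sum_map_mul_right, ← Multiset.sum_map_mul_right, map_multiset_sum,
        Multiset.map_map]
      have : (L.map ((LinearMap.trace ℂ V) ∘ fun i => ρ i * E * T))
          = L.map fun _ => LinearMap.trace ℂ V (ρ h * E * T) :=
        Multiset.map_congr rfl fun y hy => key y hy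
      rw [this, Multiset.map_const', Multiset.sum_replicate, nsmul_eq_mul]
    rw [halt, zero_mul, map_zero] at h1
    have hLc : (L.card : ℂ) ≠ 0 := by
      exact_mod_cast (Multiset.card_pos.mpr hL0).ne'
    exact (mul_eq_zero.mp h1.symm).resolve_left hLc
  refine ⟨hconj ρ ?_ halt1, hconj (tw ρ) ?_ halt2⟩
  · intro d u
    rw [← map_mul, ← map_mul]
    congr 1
    group
  · intro d u
    rw [tw_apply, tw_apply, mul_smul_comm, smul_mul_assoc, ← map_mul, ← map_mul]
    have h1 : sign (d * u * d⁻¹) = sign u := by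
      rw [map_mul, map_mul, mul_comm (sign d), mul_assoc, ← map_mul, mul_inv_cancel, map_one,
        mul_one]
    rw [h1]
    congr 2
    group

end vect

end Pool.Agent.U93.L
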