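import Mathlib
import Pool.Agent.U93.L.Pair
import Pool.Agent.U93.L.Cos
import Pool.Agent.N850.Dur.Main

/-!
# Artin L-functions of groups with a factor `S_n` or `A_n` at zeros of small order
-/

set_option autoImplicit false
set_option linter.unusedSectionVars false

namespace Pool.Agent.U93.L

open Equiv Equiv.Perm Pool.Agent.H302R2 Pool.Agent.H302R6 Pool.Agent.U93
  Pool.Agent.H541R3.ART Pool.Agent.N850.Art

section

variable {n : ℕ} {Γ G : Type} [Group Γ] [Finite Γ] [Group G] [Finite G]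

/-- the extension of a function by zero along an embedding -/
noncomputable def extI (ι : G →* Γ) (θ : G → ℂ) (γ : Γ) : ℂ :=
  open Classical in if h : ∃ g, ι g = γ then θ h.choose else 0

lemma extI_apply {ι : G →* Γ} (hι : Function.Injective ι) (θ : G → ℂ) (g : G) :
    extI ι θ (ι g) = θ g := by
  have h : ∃ g', ι g' = ι g := ⟨g, rfl⟩
  have h1 : extI ι θ (ι g) = θ h.choose := dif_pos h
  rw [h1, hι h.choose_spec]

lemma extI_zero {ι : G →* Γ} (θ : G → ℂ) {γ : Γ} (h : γ ∉ ι.range) : extI ι θ γ = 0 :=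
  dif_neg h

/-- Heilbronn functions of small degree on subgroups of `Γ` have the vanishing property on the
cosets of the symmetric group. -/
theorem nilZ_gen {k : ℕ} (j : Perm (Fin n) →* Γ) {ι : G →* Γ} (hι : Function.Injective ι)
    (hA : ∀ σ ∈ alternatingGroup (Fin n), j σ ∈ ι.range) {θ : G → ℂ} (hθ : IsHeilbronn θ) {r : ℕ}
    (hr : θ 1 = r) (hrk : r < (n / 4).choose k) (c : Γ) (hc : ∀ τ, c * j τ = j τ * c) :
    NilZ (Fin k) (fun σ => extI ι θ (j σ * c)) := by
  classical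
  intro P _ _ _ φ Λ p hcomm hdis hsgn hΛ
  have hcz : ∀ (d : Subgroup.zpowers c) (τ : Perm (Fin n)), Commute (j τ) (d : Γ) := by
    rintro ⟨d, m, rfl⟩ τ
    exact (show Commute (j τ) c from (hc τ).symm).zpow_right m
  have hCc : ∀ a b : Subgroup.zpowers c, a * b = b * a := zpowers_comm c
  have hnil : Group.IsNilpotent (Subgroup.zpowers c) := by
    let _ : CommGroup (Subgroup.zpowers c) :=
      { (inferInstance : Group (Subgroup.zpowers c)) with mul_comm := hCc }
    exact CommGroup.isNilpotent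
  have : Fintype P := Fintype.ofFinite P
  have : Fintype (Subgroup.zpowers c) := Fintype.ofFinite _
  let Φ : P × Subgroup.zpowers c →* Γ := (j.comp φ).noncommCoprod (Subgroup.zpowers c).subtype
    (fun x d => hcz d (φ x))
  have hΦ : ∀ x, Φ x = j (φ x.1) * (x.2 : Γ) := fun x => rfl
  set Q : Subgroup (P × Subgroup.zpowers c) := ι.range.comap Φ with hQ
  have : Fintype Q := Fintype.ofFinite _
  let Φ' : Q →* G := (ι.ofInjective hι).symm.toMonoidHom.comp
    ((Φ.comp Q.subtype).codRestrict ι.range (fun x => x.2))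
  have hΦ' : ∀ x : Q, ι (Φ' x) = Φ x := by
    intro x
    have h1 := (ι.ofInjective hι).apply_symm_apply ⟨Φ x, x.2⟩
    exact congrArg Subtype.val h1
  -- the alternating group
  let jA : alternatingGroup (Fin n) →* G := (ι.ofInjective hι).symm.toMonoidHom.comp
    ((j.comp (alternatingGroup (Fin n)).subtype).codRestrict ι.range (fun x => hA x x.2))
  have hjA : ∀ x : alternatingGroup (Fin n), ι (jA x) = j x := by
    intro x
    have h1 := (ι.ofInjective hι).apply_symm_apply ⟨j x, hA x x.2⟩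
    exact congrArg Subtype.val h1
  have hp : ∀ i, ((p i, 1) : P × Subgroup.zpowers c) ∈ Q := by
    intro i
    rw [hQ, Subgroup.mem_comap, hΦ]
    simp only [Subgroup.coe_one, mul_one]
    exact hA _ (mem_alternatingGroup.mpr (hsgn i))
  let p' : Fin k → Q := fun i => ⟨(p i, 1), hp i⟩
  set C : Subgroup Q := Subgroup.closure (Set.range p') with hC
  have hCcomm : ∀ x ∈ Set.range p', ∀ y ∈ Set.range p', x * y = y * x := by
    rintro _ ⟨i, rfl⟩ _ ⟨i', rfl⟩
    by_cases hij : i = i'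
    · rw [hij]
    · apply Subtype.ext
      change ((p i, 1) * (p i', 1) : P × Subgroup.zpowers c) = (p i', 1) * (p i, 1)
      rw [Prod.mk_mul_mk, Prod.mk_mul_mk, (hcomm i i' hij).eq]
  have hCmem : ∀ x ∈ C, (x : P × Subgroup.zpowers c).2 = 1 ∧
      sign (φ (x : P × Subgroup.zpowers c).1) = 1 := by
    intro x hx
    have h1 : C ≤ ((MonoidHom.snd P (Subgroup.zpowers c)).comp Q.subtype).ker ⊓
        (sign.comp (φ.comp ((MonoidHom.fst P (Subgroup.zpowers c)).comp Q.subtype))).ker := by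
      rw [hC, Subgroup.closure_le]
      rintro _ ⟨i, rfl⟩
      exact ⟨rfl, hsgn i⟩
    exact h1 hx
  let _ : CommGroup C :=
    { (inferInstance : Group C) with
      mul_comm := (Subgroup.isMulCommutative_closure hCcomm).is_comm.comm }
  let ψ : C →* alternatingGroup (Fin n) :=
    (φ.comp ((MonoidHom.fst P (Subgroup.zpowers c)).comp (Q.subtype.comp C.subtype))).codRestrict _
    (fun x => mem_alternatingGroup.mpr (hCmem x x.2).2)
  have hψ : ∀ x : C, ((ψ x : alternatingGroup (Fin n)) : Perm (Fin n))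
      = φ ((x : Q) : P × Subgroup.zpowers c).1 := fun x => rfl
  have hθA : IsHeilbronn (θ ∘ jA) := hθ.comp jA
  have hlev := level k (Fin n) (θ ∘ jA) hθA r (by simpa using hr)
    (by rw [Fintype.card_fin]; exact hrk) C ψ
    (fun i => ⟨p' i, Subgroup.subset_closure ⟨i, rfl⟩⟩) (fun i i' hij => hdis i i' hij)
    (Λ.comp ((MonoidHom.fst P (Subgroup.zpowers c)).comp (Q.subtype.comp C.subtype)))
    (fun i => hΛ i)
  -- all Fourier coefficients along `c` vanish
  have hcoef : ∀ χ : Subgroup.zpowers c →* ℂˣ, ∑ y : P × Subgroup.zpowers c,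
      extI ι θ (Φ y) * (((Λ y.1 * χ y.2)⁻¹ : ℂˣ) : ℂ) = 0 := by
    intro χ
    let Λ' : Q →* ℂˣ := (Λ.coprod χ).comp Q.subtype
    have hΛ' : ∀ x : Q, Λ' x = Λ (x : P × Subgroup.zpowers c).1 * χ (x : P × Subgroup.zpowers c).2 :=
      fun x => rfl
    have hf : IsHeilbronn (fun x : Q => θ (Φ' x) * (((Λ' x)⁻¹ : ℂˣ) : ℂ)) := (hθ.comp Φ').twist Λ'
    have h1 : ∑ᶠ x : C, θ (Φ' x) * (((Λ' x)⁻¹ : ℂˣ) : ℂ) = 0 := by
      rw [← hlev]
      refine finsum_congr fun x => ?_
      have h2 : Φ' (x : Q) = jA (ψ x) := by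
        apply hι
        rw [hΦ', hjA, hΦ, (hCmem x x.2).1, Subgroup.coe_one, mul_one, hψ]
      have h3 : Λ' (x : Q) = (Λ.comp ((MonoidHom.fst P (Subgroup.zpowers c)).comp
          (Q.subtype.comp C.subtype))) x := by
        rw [hΛ', (hCmem x x.2).1, map_one, mul_one]
        rfl
      rw [h2, h3]
      rfl
    have h2 := sum_zero_of_sub hf C h1
    rw [finsum_eq_sum_of_fintype] at h2
    rw [← h2]
    symm
    refine Finset.sum_of_injOn (fun x => (x : P × Subgroup.zpowers c)) ?_ ?_ ?_ ?_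
    · intro x _ y _ h
      exact Subtype.ext h
    · intro x _
      exact Finset.mem_coe.mpr (Finset.mem_univ _)
    · intro y _ hy
      have h3 : Φ y ∉ ι.range := by
        intro h4
        exact hy ⟨⟨y, h4⟩, Finset.mem_coe.mpr (Finset.mem_univ _), rfl⟩
      rw [extI_zero θ h3, zero_mul]
    · intro x _
      rw [← hΦ', extI_apply hι, hΛ']
  have h0 := zero_of_coeff hCc (fun d : Subgroup.zpowers c => ∑ x : P, extI ι θ (j (φ x) * d) *
    (((Λ x)⁻¹ : ℂˣ) : ℂ)) (by
      intro χ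
      rw [finsum_eq_sum_of_fintype, ← hcoef χ, Fintype.sum_prod_type, Finset.sum_comm]
      refine Finset.sum_congr rfl fun d _ => ?_
      rw [Finset.sum_mul]
      refine Finset.sum_congr rfl fun x _ => ?_
      rw [hΦ, mul_inv, Units.val_mul, mul_assoc]) ⟨c, Subgroup.mem_zpowers c⟩
  rw [finsum_eq_sum_of_fintype]
  exact h0

/-- the sums of `X` over the cosets `h Sym(Z) c` vanish, also with signs, for all permutations `h`
with less than `k` nontrivial cycles and all `c` which commute with the symmetric group; here `Z` is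
the set of the fixed points of `h` -/
def CosG (j : Perm (Fin n) →* Γ) (k : ℕ) (X : Γ → ℂ) : Prop :=
  ∀ c : Γ, (∀ τ, c * j τ = j τ * c) → CosZ k (fun σ => X (j σ * c))

lemma card_cf (g : Perm (Fin n)) : g.cycleFactorsFinset.card = g.cycleType.card := by
  rw [cycleType_def, Multiset.card_map]
  rfl

lemma CosZ.inv {k : ℕ} {X : Perm (Fin n) → ℂ} (hX : CosZ k X) : CosZ k (fun σ => X σ⁻¹) := by
  intro h hh
  have h1 := hX h⁻¹ (by rw [card_cf, cycleType_inv, ← card_cf]; exact hh)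
  have hd : ∀ u, u ∈ Dj h ↔ u⁻¹ ∈ Dj h⁻¹ := by
    intro u
    rw [mem_Dj, mem_Dj, disjoint_inv_left_iff, disjoint_inv_right_iff]
  have hm : ∀ u ∈ Dj h, X (h * u)⁻¹ = X (h⁻¹ * u⁻¹) := by
    intro u hu
    rw [mem_Dj] at hu
    rw [hu.commute.eq, mul_inv_rev]
  constructor
  · rw [← h1.1, Finset.sum_congr rfl hm]
    exact Finset.sum_nbij' (fun u => u⁻¹) (fun u => u⁻¹) (fun u hu => (hd u).mp hu)
      (fun u hu => (hd _).mpr (by rw [inv_inv]; exact hu)) (fun u _ => inv_inv u)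
      (fun u _ => inv_inv u) (fun u _ => rfl)
  · rw [← h1.2]
    have hm' : ∀ u ∈ Dj h, ((sign u : ℤ) : ℂ) * X (h * u)⁻¹
        = ((sign u⁻¹ : ℤ) : ℂ) * X (h⁻¹ * u⁻¹) := by
      intro u hu
      rw [hm u hu, Perm.sign_inv]
    rw [Finset.sum_congr rfl hm']
    exact Finset.sum_nbij' (fun u => u⁻¹) (fun u => u⁻¹) (fun u hu => (hd u).mp hu)
      (fun u hu => (hd _).mpr (by rw [inv_inv]; exact hu)) (fun u _ => inv_inv u)
      (fun u _ => inv_inv u) (fun u _ => rfl)

/-- The orthogonality theorem for `Γ`. -/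
theorem pair_gen {k : ℕ} (hk : 1 ≤ k) {j : Perm (Fin n) →* Γ} (hj : Central j) {ι : G →* Γ}
    (hι : Function.Injective ι) (hA : ∀ σ ∈ alternatingGroup (Fin n), j σ ∈ ι.range) {θ : G → ℂ}
    (hθ : IsHeilbronn θ) {r : ℕ} (hr : θ 1 = r) (hrk : r < (n / 4).choose k) {X : Γ → ℂ}
    (hXc : ∀ a b, X (b * a * b⁻¹) = X a) (hX : CosG j k X) [Fintype G] :
    ∑ g : G, θ g * X (ι g)⁻¹ = 0 := by
  classical
  have : Fintype Γ := Fintype.ofFinite Γ
  let C : Subgroup Γ := Subgroup.centralizer (j.range : Set Γ)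
  have hC : ∀ c : Γ, c ∈ C ↔ ∀ τ, c * j τ = j τ * c := by
    intro c
    rw [Subgroup.mem_centralizer_iff]
    constructor
    · intro h τ
      exact (h (j τ) ⟨τ, rfl⟩).symm
    · rintro h _ ⟨τ, rfl⟩
      exact (h τ).symm
  let f : Perm (Fin n) × C →* Γ := MonoidHom.noncommCoprod j C.subtype (by
    intro τ c
    exact (((hC c).mp c.2) τ).symm)
  have hf : ∀ p, f p = j p.1 * (p.2 : Γ) := fun p => rfl
  have hsurj : Function.Surjective f := by
    intro γ
    obtain ⟨σ, c, hγ, hc⟩ := hj γ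
    exact ⟨(σ, ⟨c, (hC c).mpr hc⟩), by rw [hf, hγ]⟩
  -- the sum over one coset
  have hcos : ∀ c : C, ∑ σ : Perm (Fin n), extI ι θ (j σ * c) * X (j σ * c)⁻¹ = 0 := by
    intro c
    have hc := (hC c).mp c.2
    have hc' : ∀ τ, (c : Γ)⁻¹ * j τ = j τ * (c : Γ)⁻¹ := by
      intro τ
      exact ((show Commute (c : Γ) (j τ) from hc τ).inv_left).eq
    set F₀ : Perm (Fin n) → ℂ := fun σ => extI ι θ (j σ * c) with hF₀
    set X' : Perm (Fin n) → ℂ := fun σ => X (j σ * c)⁻¹ with hX'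
    have h1 : NilZ (Fin k) F₀ := nilZ_gen j hι hA hθ hr hrk c hc
    have h2 : NilZ (Fin k) (fun g => ∑ τ : Perm (Fin n), F₀ (τ * g * τ⁻¹)) :=
      NilZ.sum Finset.univ (fun τ _ => h1.conj τ)
    have h3 : ∀ g h : Perm (Fin n), ∑ τ : Perm (Fin n), F₀ (τ * (h * g * h⁻¹) * τ⁻¹)
        = ∑ τ : Perm (Fin n), F₀ (τ * g * τ⁻¹) := by
      intro g h
      rw [← Equiv.sum_comp (Equiv.mulRight h) (fun τ => F₀ (τ * g * τ⁻¹))]
      refine Finset.sum_congr rfl fun τ _ => ?_
      congr 1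
    have h4 : CosZ k X' := by
      have h5 := (hX (c : Γ)⁻¹ hc').inv
      have h6 : X' = fun σ => X (j σ⁻¹ * (c : Γ)⁻¹) := by
        funext σ
        rw [hX']
        simp only
        rw [mul_inv_rev, ← map_inv, hc']
      rw [h6]
      exact h5
    have h5 := pair_main hk (F := fun g => ∑ τ : Perm (Fin n), F₀ (τ * g * τ⁻¹)) h3 h2 h4
    simp only [Finset.sum_mul] at h5
    rw [Finset.sum_comm] at h5
    have h6 : ∀ τ : Perm (Fin n), ∑ σ : Perm (Fin n), F₀ (τ * σ * τ⁻¹) * X' σ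
        = ∑ σ : Perm (Fin n), F₀ σ * X' σ := by
      intro τ
      rw [← Equiv.sum_comp (MulAut.conj τ).toEquiv (fun σ => F₀ σ * X' σ)]
      refine Finset.sum_congr rfl fun σ _ => ?_
      have e1 : (MulAut.conj τ).toEquiv σ = τ * σ * τ⁻¹ := rfl
      rw [e1]
      congr 1
      rw [hX']
      simp only
      have e2 : (j (τ * σ * τ⁻¹) * (c : Γ))⁻¹ = j τ * (j σ * (c : Γ))⁻¹ * (j τ)⁻¹ := by
        rw [map_mul, map_mul, map_inv]
        have e3 : (j τ)⁻¹ * (c : Γ) = (c : Γ) * (j τ)⁻¹ :=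
          ((show Commute (c : Γ) (j τ) from hc τ).symm.inv_left).eq
        have e4 : j τ * j σ * (j τ)⁻¹ * (c : Γ) = j τ * (j σ * c) * (j τ)⁻¹ := by
          rw [mul_assoc (j τ * j σ), e3]
          group
        rw [e4]
        group
      rw [e2, hXc]
    rw [Finset.sum_congr rfl (fun τ _ => h6 τ), Finset.sum_const, nsmul_eq_mul] at h5
    refine (mul_eq_zero.mp h5).resolve_left ?_
    have : (Finset.univ : Finset (Perm (Fin n))).card ≠ 0 :=
      (Finset.card_pos.mpr ⟨1, Finset.mem_univ _⟩).ne'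
    exact_mod_cast this
  have h1 := sum_comp_surj f hsurj (fun γ => extI ι θ γ * X γ⁻¹)
  have h2 : ∑ e : Perm (Fin n) × C, extI ι θ (f e) * X (f e)⁻¹ = 0 := by
    rw [Fintype.sum_prod_type, Finset.sum_comm]
    exact Finset.sum_eq_zero fun c _ => hcos c
  rw [h2] at h1
  have h3 : (Nat.card f.ker : ℂ) ≠ 0 := by
    exact_mod_cast Nat.card_pos.ne'
  have h4 := (mul_eq_zero.mp h1.symm).resolve_left h3
  rw [← h4]
  refine Finset.sum_of_injOn (fun g => ι g) hι.injOn ?_ ?_ ?_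
  · intro g _
    exact Finset.mem_coe.mpr (Finset.mem_univ _)
  · intro γ _ hγ
    have h5 : γ ∉ ι.range := by
      rintro ⟨g, rfl⟩
      exact hγ ⟨g, Finset.mem_coe.mpr (Finset.mem_univ _), rfl⟩
    rw [extI_zero θ h5, zero_mul]
  · intro g _
    rw [extI_apply hι]

end

end Pool.Agent.U93.L
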