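import Mathlib
import Pool.Agent.U93.L.Gen

/-!
# Orders of Artin L-functions at zeros of small order: the general theorem
-/

set_option autoImplicit false
set_option linter.unusedSectionVars false

namespace Pool.Agent.U93.L

open Equiv Equiv.Perm Pool.Agent.H302R2 Pool.Agent.H541R3.ART Pool.Agent.N850.Art
  Pool.Agent.N850.Dur

variable {n : ℕ} {Γ G : Type} [Group Γ] [Finite Γ] [Group G] [Finite G]

/-- The orders of the L-functions of characters whose coset sums vanish. -/
theorem order_zero_cos {k : ℕ} {j : Perm (Fin n) →* Γ} (hj : Central j) {ι : G →* Γ}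
    (hι : Function.Injective ι) (hA : ∀ σ ∈ alternatingGroup (Fin n), j σ ∈ ι.range) {s₀ : ℂ}
    (A : ArtinData G s₀) {r : ℕ} (hr : meromorphicOrderAt (A.Lin ⊥ 1) s₀ = (r : WithTop ℤ))
    (hrk : r < (n / 4).choose k) {X : Γ → ℂ} (hXc : ∀ a b, X (b * a * b⁻¹) = X a)
    (hirr : (fun g => X (ι g)) ∈ Irr G) (hX : CosG j k X) :
    meromorphicOrderAt (A.L fun g => X (ι g)) s₀ = 0 := by
  classical
  have : Fintype G := Fintype.ofFinite G
  have hθ := A.isHeilbronn
  have h1 := A.theta_one hr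
  have h0 : ∑ g : G, (theta A.ord : G → ℂ) g * X (ι g⁻¹) = 0 := by
    rcases Nat.eq_zero_or_pos k with hk | hk
    · subst hk
      rw [Nat.choose_zero_right] at hrk
      have hr0 : r = 0 := by omega
      refine Finset.sum_eq_zero fun g _ => ?_
      have h2 := hθ.norm_le g
      rw [h1, hr0] at h2
      simp only [Nat.cast_zero, Complex.zero_re] at h2
      rw [norm_le_zero_iff.mp h2, zero_mul]
    · have h2 := pair_gen hk hj hι hA hθ h1 hrk hXc hX
      rw [← h2]
      refine Finset.sum_congr rfl fun g _ => ?_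
      rw [map_inv]
  have h2 := A.order_eq hirr (k := 0) (by rw [h0]; simp)
  exact_mod_cast h2

/-- Characters with a large Durfee square have vanishing coset sums. -/
theorem thick_cosG {t : ℕ} {j : Perm (Fin n) →* Γ} {ι : G →* Γ} {X : Γ → ℂ}
    (hX : Thick j ι t X) : CosG j t X := by
  classical
  obtain ⟨d, ρ, hρ⟩ := hX.char
  intro c hc h hh
  let ρ' : Perm (Fin n) →* Module.End ℂ (Fin d → ℂ) := MonoidHom.comp ρ j
  have hH : ∀ (c : Fin n → Fin t) (P : Finset (Fin n)), sc (tw ρ') c P * sc ρ' c Pᶜ = 0 := by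
    intro c P
    refine young_zero ρ' ?_
    have h1 := hX.young c P
    rw [hρ] at h1
    exact h1
  have h1 := cos_trace ρ' t hH (T := ρ c) (by
    intro y
    change ρ c * ρ (j y) = ρ (j y) * ρ c
    rw [← map_mul, hc, map_mul]) h hh
  have hX' : ∀ u, X (j (h * u) * c) = LinearMap.trace ℂ (Fin d → ℂ) (ρ' h * ρ' u * ρ c) := by
    intro u
    rw [hρ]
    change LinearMap.trace ℂ _ (ρ (j (h * u) * c)) = LinearMap.trace ℂ _ (ρ (j h) * ρ (j u) * ρ c)
    congr 1
    rw [map_mul, map_mul, map_mul]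
  constructor
  · rw [← h1.1, Finset.mul_sum, Finset.sum_mul, map_sum]
    exact Finset.sum_congr rfl fun u _ => hX' u
  · rw [← h1.2, Finset.mul_sum, Finset.sum_mul, map_sum]
    refine Finset.sum_congr rfl fun u _ => ?_
    change ((sign u : ℤ) : ℂ) * X (j (h * u) * c) = _
    rw [hX', tw_apply, mul_smul_comm, smul_mul_assoc, map_zsmul, zsmul_eq_mul]

/-- The orders of the L-functions of characters with a large Durfee square. -/
theorem order_zero_thick {k : ℕ} {j : Perm (Fin n) →* Γ} (hj : Central j) {ι : G →* Γ}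
    (hι : Function.Injective ι) (hA : ∀ σ ∈ alternatingGroup (Fin n), j σ ∈ ι.range) {s₀ : ℂ}
    (A : ArtinData G s₀) {r : ℕ} (hr : meromorphicOrderAt (A.Lin ⊥ 1) s₀ = (r : WithTop ℤ))
    (hrk : r < (n / 4).choose k) {X : Γ → ℂ} (hX : Thick j ι k X) :
    meromorphicOrderAt (A.L fun g => X (ι g)) s₀ = 0 := by
  refine order_zero_cos hj hι hA A hr hrk ?_ hX.irr (thick_cosG hX)
  obtain ⟨d, ρ, hρ⟩ := hX.char
  intro a b
  rw [hρ]
  exact ρ.char_conj a b

end Pool.Agent.U93.L
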